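import Pool.Agent.N609.WH.Perf

/-!
# All partitions into many bases are connected
-/

set_option autoImplicit false

namespace Pool.Agent.N609.WH

open Finset Pool.Agent.R31.Partition

variable {α : Type} [DecidableEq α] {r : Finset α → ℕ}

theorem pack_of_part (h : IsRank r) (h0 : r ∅ = 0) {ι : Type} [Fintype ι] {E : Finset α} {R : ℕ}
    {T : ι → Finset α} (hT : Part r E R T) {F : Finset α} (hF : F ⊆ E) :
    F.card ≤ Fintype.card ι * r F := by
  rw [card_eq_sum hT hF]
  refine (sum_le_sum (fun j _ => inter_le h h0 hT F j)).trans ?_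
  rw [sum_const, card_univ, smul_eq_mul]

theorem part_of_pack (h : IsRank r) (h0 : r ∅ = 0) {ι : Type} [Fintype ι] [DecidableEq ι]
    [Nonempty ι] {E : Finset α} {R : ℕ} (hc : E.card = Fintype.card ι * R)
    (hE : ∀ F ⊆ E, F.card ≤ Fintype.card ι * r F) (hR : ∀ F ⊆ E, r F ≤ R) :
    ∃ T : ι → Finset α, Part r E R T := by
  obtain ⟨f, hf⟩ := partition (ι := ι) E.card E (fun _ => r) (fun _ => h) rfl (by
    intro F' hF'
    rw [sum_const, sum_const, h0, smul_zero, zero_add, card_univ, smul_eq_mul]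
    exact hE F' hF')
  have hle : ∀ j, (E.filter (fun a => f a = j)).card ≤ R := by
    intro j
    have h1 := hf j
    rw [h0, zero_add] at h1
    rw [← h1]
    exact hR _ (filter_subset _ _)
  have hsum : ∑ j, (E.filter (fun a => f a = j)).card = E.card := by
    rw [← card_eq_sum_card_fiberwise (fun a _ => mem_coe.2 (mem_univ (f a)))]
  have heq : ∀ j, (E.filter (fun a => f a = j)).card = R := by
    have h1 : ∑ j : ι, (E.filter (fun a => f a = j)).card = ∑ _j : ι, R := by
      rw [hsum, hc, sum_const, card_univ, smul_eq_mul]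
    intro j
    exact (sum_eq_sum_iff_of_le (fun j _ => hle j)).1 h1 j (mem_univ j)
  refine ⟨fun j => E.filter (fun a => f a = j), heq, fun j => ?_, fun i j hij => ?_, ?_⟩
  · have h1 := hf j
    rw [h0, zero_add] at h1
    exact h1.trans (heq j)
  · rw [disjoint_left]
    intro a ha hb
    exact hij ((mem_filter.1 ha).2.symm.trans (mem_filter.1 hb).2)
  · ext z
    simp [mem_biUnion]

theorem ext_part {ι : Type} [Fintype ι] [DecidableEq ι] (o : ι) {E D : Finset α} {R : ℕ}
    (hDE : D ⊆ E) (hDc : D.card = R) (hDr : r D = R) {T1 : {j // j ≠ o} → Finset α}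
    (hT1 : Part r (E \ D) R T1) :
    Part r E R (fun j => if h : j ≠ o then T1 ⟨j, h⟩ else D) := by
  have hsub : ∀ j, T1 j ⊆ E \ D := fun j => by
    rw [← hT1.union]
    exact subset_biUnion_of_mem T1 (mem_univ j)
  refine ⟨fun j => ?_, fun j => ?_, fun i j hij => ?_, ?_⟩
  · by_cases hj : j ≠ o
    · simp only [dif_pos hj]; exact hT1.card _
    · simp only [dif_neg hj]; exact hDc
  · by_cases hj : j ≠ o
    · simp only [dif_pos hj]; exact hT1.rk _
    · simp only [dif_neg hj]; exact hDr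
  · by_cases hi : i ≠ o
    · by_cases hj : j ≠ o
      · simp only [dif_pos hi, dif_pos hj]
        exact hT1.disj _ _ (fun e => hij (congrArg Subtype.val e))
      · simp only [dif_pos hi, dif_neg hj]
        exact disjoint_of_subset_left (hsub _) sdiff_disjoint
    · by_cases hj : j ≠ o
      · simp only [dif_neg hi, dif_pos hj]
        exact disjoint_of_subset_right (hsub _) disjoint_sdiff
      · exfalso
        exact hij ((not_not.1 hi).trans (not_not.1 hj).symm)
  · ext z
    rw [mem_biUnion]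
    constructor
    · rintro ⟨j, -, hj⟩
      by_cases hjo : j ≠ o
      · simp only [dif_pos hjo] at hj
        exact (mem_sdiff.1 (hsub _ hj)).1
      · simp only [dif_neg hjo] at hj
        exact hDE hj
    · intro hz
      by_cases hzD : z ∈ D
      · exact ⟨o, mem_univ _, by simpa using hzD⟩
      · have h1 : z ∈ E \ D := mem_sdiff.2 ⟨hz, hzD⟩
        rw [← hT1.union, mem_biUnion] at h1
        obtain ⟨j, -, hj⟩ := h1
        refine ⟨j.1, mem_univ _, ?_⟩
        simpa only [dif_pos j.2] using hj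

theorem card_ne {ι : Type} [Fintype ι] [DecidableEq ι] (o : ι) :
    Fintype.card {j // j ≠ o} = Fintype.card ι - 1 := by
  rw [Fintype.card_subtype_compl, Fintype.card_subtype_eq]

theorem common (h : IsRank r) (h0 : r ∅ = 0) {ι : Type} [Fintype ι] [DecidableEq ι]
    {E : Finset α} {R : ℕ} (hk : R + 1 ≤ Fintype.card ι) (hR : ∀ F ⊆ E, r F ≤ R) {x y : α}
    (hx : x ∈ E) (hy : y ∈ E) (hxy : x ≠ y) {B : ι → Finset α} (hB : Part r (E.erase x) R B)
    (hpack : ∀ F ⊆ E.erase y, F.card ≤ Fintype.card ι * r F) :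
    ∃ (i : ι) (C : ι → Finset α), Part r (E.erase y) R C ∧ C i = B i := by
  classical
  have hBsub : ∀ j, B j ⊆ E.erase x := fun j => by
    rw [← hB.union]
    exact subset_biUnion_of_mem B (mem_univ j)
  have hBE : ∀ j, B j ⊆ E := fun j => (hBsub j).trans (erase_subset _ _)
  have hmem : ∀ z ∈ E, z ≠ x → ∃ j, z ∈ B j := by
    intro z hz hzx
    have : z ∈ E.erase x := mem_erase.2 ⟨hzx, hz⟩
    rw [← hB.union, mem_biUnion] at this
    obtain ⟨j, -, hj⟩ := this
    exact ⟨j, hj⟩
  have hxB : ∀ i, x ∉ B i := fun i hi => (mem_erase.1 (hBsub i hi)).1 rfl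
  have hE : insert x (univ.biUnion B) = E := by rw [hB.union, insert_erase hx]
  have hEc : E.card = Fintype.card ι * R + 1 := by
    have h1 := card_eq_sum hB (Subset.refl (E.erase x))
    have h2 : ∀ j, ((E.erase x) ∩ B j).card = R := fun j => by
      rw [inter_eq_right.2 (hBsub j), hB.card]
    rw [sum_congr rfl (fun j _ => h2 j), sum_const, card_univ, smul_eq_mul,
      card_erase_of_mem hx] at h1
    have h3 := card_pos.2 ⟨x, hx⟩
    omega
  obtain ⟨o, ho⟩ := hmem y hy hxy.symm
  by_contra hcon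
  have hviol : ∀ i : ι, i ≠ o → ∃ A : Finset α, A ⊆ (E.erase y) \ B i ∧
      (Fintype.card ι - 1) * r A < A.card := by
    intro i hi
    by_contra hno
    push Not at hno
    apply hcon
    have hyi : y ∉ B i := fun hh => disjoint_left.1 (hB.disj i o hi) hh ho
    have hBi : B i ⊆ E.erase y := fun z hz => mem_erase.2 ⟨fun e => hyi (e ▸ hz), hBE i hz⟩
    have : Nonempty {j : ι // j ≠ i} := ⟨⟨o, hi.symm⟩⟩
    obtain ⟨T1, hT1⟩ := part_of_pack (r := r) (ι := {j : ι // j ≠ i}) (E := (E.erase y) \ B i)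
      (R := R) h h0
      (by
        rw [card_ne, card_sdiff_of_subset hBi, card_erase_of_mem hy, hEc, hB.card,
          Nat.add_sub_cancel, Nat.sub_mul, one_mul])
      (fun F hF => by rw [card_ne]; exact hno F hF)
      (fun F hF => hR F (hF.trans (sdiff_subset.trans (erase_subset _ _))))
    exact ⟨i, _, ext_part i hBi (hB.card i) (hB.rk i) hT1, by simp⟩
  choose! A hA1 hA2 using hviol
  have hstr : ∀ i ≠ o, x ∈ A i ∧ y ∉ A i ∧ ∀ j ≠ i, (A i ∩ B j).card = r (A i) := by
    intro i hi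
    have h1 := hA1 i hi
    have h2 := hA2 i hi
    have hyA : y ∉ A i := fun hh => (mem_erase.1 (mem_sdiff.1 (h1 hh)).1).1 rfl
    have hle : ∀ j ∈ univ.erase i, (A i ∩ B j).card ≤ r (A i) := fun j _ => inter_le h h0 hB _ j
    have hsub : (A i).erase x ⊆ (univ.erase i).biUnion (fun j => A i ∩ B j) := by
      intro z hz
      obtain ⟨hzx, hzA⟩ := mem_erase.1 hz
      have h3 := mem_sdiff.1 (h1 hzA)
      obtain ⟨j, hj⟩ := hmem z (mem_erase.1 h3.1).2 hzx
      have hji : j ≠ i := fun e => h3.2 (e ▸ hj)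
      exact mem_biUnion.2 ⟨j, mem_erase.2 ⟨hji, mem_univ _⟩, mem_inter.2 ⟨hzA, hj⟩⟩
    have h4 := (card_le_card hsub).trans card_biUnion_le
    have h5 : ∑ j ∈ univ.erase i, (A i ∩ B j).card ≤ ∑ _j ∈ univ.erase i, r (A i) :=
      sum_le_sum hle
    have h6 : ∑ _j ∈ (univ : Finset ι).erase i, r (A i) = (Fintype.card ι - 1) * r (A i) := by
      rw [sum_const, card_erase_of_mem (mem_univ _), card_univ, smul_eq_mul]
    have hxA : x ∈ A i := by
      by_contra hxA
      rw [erase_eq_of_notMem hxA] at h4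
      omega
    refine ⟨hxA, hyA, ?_⟩
    rw [card_erase_of_mem hxA] at h4
    have h7 : ∑ j ∈ univ.erase i, (A i ∩ B j).card = ∑ _j ∈ univ.erase i, r (A i) := by
      omega
    intro j hj
    exact (sum_eq_sum_iff_of_le hle).1 h7 j (mem_erase.2 ⟨hj, mem_univ _⟩)
  have hfin := core h h0 o B R hB.card hB.rk hB.disj x y hxB ho
    (fun F hF => hR F (by rwa [hE] at hF))
    (fun F hF hyF => hpack F (by
      rw [hE] at hF
      exact fun z hz => mem_erase.2 ⟨fun e => hyF (e ▸ hz), hF hz⟩))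
    A (fun i hi => (hstr i hi).1) (fun i hi => (hstr i hi).2.1) (fun i hi => (hstr i hi).2.2)
  omega

/-- complementary bases -/
def Comp (r : Finset α → ℕ) (E : Finset α) (R q : ℕ) (D : Finset α) : Prop :=
  D ⊆ E ∧ D.card = R ∧ r D = R ∧ ∀ F ⊆ E \ D, F.card ≤ q * r F

theorem step (h : IsRank r) (h0 : r ∅ = 0) {ι : Type} [Fintype ι] [DecidableEq ι] (o : ι)
    {E D : Finset α} {R q : ℕ} (hq : Fintype.card ι = q + 1) (hk : R + 1 ≤ q)
    (hEc : E.card = Fintype.card ι * R)
    (hR : ∀ F ⊆ E, r F ≤ R) {b g : α} (hb : b ∈ D) (hg : g ∉ D) (hgE : g ∈ E)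
    (hD : Comp r E R q D) (hD' : Comp r E R q (insert g (D.erase b))) :
    ∃ T T' : ι → Finset α, Part r E R T ∧ Part r E R T' ∧ T o = D ∧ T' o = insert g (D.erase b) ∧
      ∃ i j, T i = T' j := by
  obtain ⟨d1, d2, d3, d4⟩ := hD
  obtain ⟨e1, e2, e3, e4⟩ := hD'
  have hbE : b ∈ E := d1 hb
  have hgb : g ≠ b := fun e => hg (e ▸ hb)
  have hcard : Fintype.card {j // j ≠ o} = q := by rw [card_ne, hq, Nat.add_sub_cancel]
  have : Nonempty {j : ι // j ≠ o} := by
    rw [← Fintype.card_pos_iff, hcard]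
    omega
  set E1 := insert b (E \ D) with hE1
  have hE1E : E1 ⊆ E := insert_subset hbE sdiff_subset
  have h1 : E1.erase b = E \ D := by
    rw [hE1, erase_insert]
    exact fun hh => (mem_sdiff.1 hh).2 hb
  have h2 : E1.erase g = E \ insert g (D.erase b) := by
    ext z
    simp only [hE1, mem_erase, mem_insert, mem_sdiff]
    constructor
    · rintro ⟨z1, z2 | ⟨z2, z3⟩⟩
      · subst z2
        exact ⟨hbE, by simp [z1]⟩
      · exact ⟨z2, fun hh => by rcases hh with hh | hh; exacts [z1 hh, z3 hh.2]⟩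
    · rintro ⟨z1, z2⟩
      refine ⟨fun e => z2 (Or.inl e), ?_⟩
      by_cases hzb : z = b
      · exact Or.inl hzb
      · exact Or.inr ⟨z1, fun hzD => z2 (Or.inr ⟨hzb, hzD⟩)⟩
  obtain ⟨B, hB⟩ := part_of_pack (r := r) (ι := {j : ι // j ≠ o}) (E := E \ D) (R := R) h h0
    (by rw [hcard, card_sdiff_of_subset d1, hEc, d2, hq, add_mul, one_mul, Nat.add_sub_cancel])
    (fun F hF => by rw [hcard]; exact d4 F hF) (fun F hF => hR F (hF.trans sdiff_subset))
  rw [← h1] at hB
  obtain ⟨i, C, hC, hCi⟩ := common h h0 (by rw [hcard]; exact hk) (fun F hF => hR F (hF.trans hE1E))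
    (mem_insert_self _ _) (mem_insert_of_mem (mem_sdiff.2 ⟨hgE, hg⟩)) hgb.symm hB
    (fun F hF => by rw [hcard]; exact e4 F (by rwa [h2] at hF))
  rw [h1] at hB
  rw [h2] at hC
  refine ⟨_, _, ext_part o d1 d2 d3 hB, ext_part o e1 e2 e3 hC, by simp, by simp, i.1, i.1, ?_⟩
  simp only [dif_pos i.2]
  exact hCi.symm

theorem comp_of_part (h : IsRank r) (h0 : r ∅ = 0) {ι : Type} [Fintype ι] [DecidableEq ι]
    {E : Finset α} {R q : ℕ} (hq : Fintype.card ι = q + 1) {S : ι → Finset α} (hS : Part r E R S)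
    (o : ι) : Comp r E R q (S o) := by
  have hsub : S o ⊆ E := by
    rw [← hS.union]
    exact subset_biUnion_of_mem S (mem_univ o)
  refine ⟨hsub, hS.card o, hS.rk o, fun F hF => ?_⟩
  have h1 := card_eq_sum hS (hF.trans sdiff_subset)
  have h2 : F ∩ S o = ∅ := by
    rw [← disjoint_iff_inter_eq_empty]
    exact disjoint_of_subset_left hF sdiff_disjoint
  rw [← add_sum_erase univ _ (mem_univ o), h2, card_empty, zero_add] at h1
  rw [h1]
  refine (sum_le_sum (fun j _ => inter_le h h0 hS F j)).trans ?_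
  rw [sum_const, card_erase_of_mem (mem_univ _), card_univ, hq, Nat.add_sub_cancel, smul_eq_mul]

theorem conn (h : IsRank r) (h0 : r ∅ = 0) {ι : Type} [Fintype ι] [DecidableEq ι] (o : ι)
    {E G : Finset α} {R q : ℕ} (hq : Fintype.card ι = q + 1) (hk : R + 1 ≤ q)
    (hEc : E.card = Fintype.card ι * R) (hR : ∀ F ⊆ E, r F ≤ R)
    (hGE : G ⊆ E) (hGc : G.card = R) (hGr : r G = R)
    (hperf : ∀ F ⊆ E, F.card = q * r F → ∃ T ⊆ G, T.card = r F ∧ r (F ∪ T) ≤ r F) :
    ∀ (n : ℕ) (D : Finset α), (G \ D).card = n → Comp r E R q D →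
      ∀ S S' : ι → Finset α, Part r E R S → Part r E R S' → S o = D → S' o = G →
        Relation.ReflTransGen (PRel r E R) S S' := by
  intro n
  induction n using Nat.strong_induction_on with
  | _ n ih =>
    intro D hn hD S S' hS hS' hSo hSo'
    by_cases hGD : G ⊆ D
    · have h1 : G = D := eq_of_subset_of_card_le hGD (by rw [hD.2.1, hGc])
      exact Relation.ReflTransGen.single ⟨hS, hS', o, o, by rw [hSo, hSo', h1]⟩
    · obtain ⟨g, hgG, hgD⟩ := not_subset.1 hGD
      obtain ⟨b, hbD, hbG, hb1, hb2⟩ := exch h h0 (by omega) hR hD.1 hD.2.1 hD.2.2.1 hD.2.2.2 hGE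
        hGc hGr hperf hgG hgD
      have hD' : Comp r E R q (insert g (D.erase b)) := by
        refine ⟨insert_subset (hGE hgG) ((erase_subset _ _).trans hD.1), ?_, hb1, hb2⟩
        rw [card_insert_of_notMem (fun hh => hgD (mem_of_mem_erase hh)), card_erase_of_mem hbD,
          hD.2.1]
        have : 0 < D.card := card_pos.2 ⟨b, hbD⟩
        rw [hD.2.1] at this
        omega
      obtain ⟨T, T', hT, hT', hTo, hTo', hij⟩ := step h h0 o hq hk hEc hR hbD hgD (hGE hgG) hD hD'
      have hlt : (G \ insert g (D.erase b)).card < n := by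
        rw [← hn]
        apply card_lt_card
        rw [ssubset_iff_of_subset]
        · exact ⟨g, mem_sdiff.2 ⟨hgG, hgD⟩, fun hh => (mem_sdiff.1 hh).2 (mem_insert_self _ _)⟩
        · intro z hz
          obtain ⟨z1, z2⟩ := mem_sdiff.1 hz
          refine mem_sdiff.2 ⟨z1, fun hzD => z2 ?_⟩
          exact mem_insert_of_mem (mem_erase.2 ⟨fun e => hbG (e ▸ z1), hzD⟩)
      have h1 : Relation.ReflTransGen (PRel r E R) S T :=
        Relation.ReflTransGen.single ⟨hS, hT, o, o, by rw [hSo, hTo]⟩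
      have h2 : Relation.ReflTransGen (PRel r E R) T T' :=
        Relation.ReflTransGen.single ⟨hT, hT', hij⟩
      exact (h1.trans h2).trans (ih _ hlt _ rfl hD' T' S' hT' hS' hTo' hSo')

theorem prel_symm {ι : Type} [Fintype ι] {E : Finset α} {R : ℕ} {T T' : ι → Finset α}
    (hT : PRel r E R T T') : PRel r E R T' T := by
  obtain ⟨h1, h2, i, j, hij⟩ := hT
  exact ⟨h2, h1, j, i, hij.symm⟩

theorem prel_rev {ι : Type} [Fintype ι] {E : Finset α} {R : ℕ} {T T' : ι → Finset α}
    (hT : Relation.ReflTransGen (PRel r E R) T T') : Relation.ReflTransGen (PRel r E R) T' T := by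
  induction hT with
  | refl => exact Relation.ReflTransGen.refl
  | tail _ h2 ih => exact Relation.ReflTransGen.head (prel_symm h2) ih

/-- All partitions into `k ≥ R ^ 3 + 2` bases are connected. -/
theorem t_PART {R k : ℕ} (hk : R ^ 3 + 2 ≤ k) : S_PART R k := by
  intro β _ r h h0 E hR S S' hS hS'
  obtain ⟨q, rfl⟩ : ∃ q, k = q + 1 := ⟨k - 1, by omega⟩
  have hR3 : R ≤ R ^ 3 := Nat.le_self_pow (by norm_num) R
  have hq : Fintype.card (Fin (q + 1)) = q + 1 := Fintype.card_fin _
  obtain ⟨l, hl⟩ := perfect_exists h h0 hq (by rw [hq]; omega) hR hS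
  have hsub : ∀ j, S j ⊆ E := fun j => by
    rw [← hS.union]
    exact subset_biUnion_of_mem S (mem_univ j)
  have hEc : E.card = Fintype.card (Fin (q + 1)) * R := by
    have h1 := card_eq_sum hS (Subset.refl E)
    have h2 : ∀ j, (E ∩ S j).card = R := fun j => by
      rw [inter_eq_right.2 (hsub j), hS.card]
    rw [sum_congr rfl (fun j _ => h2 j), sum_const, card_univ, smul_eq_mul] at h1
    exact h1
  have hP : Part r E R (fun i => S (Equiv.swap 0 l i)) := by
    refine ⟨fun i => hS.card _, fun i => hS.rk _, fun i j hij => hS.disj _ _ (fun e => hij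
      ((Equiv.swap 0 l).injective e)), ?_⟩
    rw [← hS.union]
    ext z
    rw [mem_biUnion, mem_biUnion]
    constructor
    · rintro ⟨i, -, hi⟩
      exact ⟨_, mem_univ _, hi⟩
    · rintro ⟨i, -, hi⟩
      exact ⟨Equiv.swap 0 l i, mem_univ _, by rwa [Equiv.swap_apply_self]⟩
  have hmain : ∀ U : Fin (q + 1) → Finset β, Part r E R U →
      Relation.ReflTransGen (PRel r E R) U (fun i => S (Equiv.swap 0 l i)) := by
    intro U hU
    exact conn h h0 0 hq (by omega) hEc hR (hsub l) (hS.card l) (hS.rk l) hl _ (U 0) rfl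
      (comp_of_part h h0 hq hU 0) U _ hU hP rfl (by simp)
  exact (hmain S hS).trans (prel_rev (hmain S' hS'))

end Pool.Agent.N609.WH
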