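import Mathlib
import Pool.Agent.R31.Partition

/-!
# Disjoint bases: the set functions behind the exchange of one element
-/

set_option autoImplicit false

namespace Pool.Agent.N609.WH

open Finset Pool.Agent.R31.Partition

variable {α : Type} [DecidableEq α] {r : Finset α → ℕ}

theorem rk_union_le (h : IsRank r) (h0 : r ∅ = 0) (A T : Finset α) :
    r (A ∪ T) ≤ r A + T.card := by
  induction T using Finset.induction_on with
  | empty => simp
  | insert a T ha ih =>
    rw [union_insert, card_insert_of_notMem ha]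
    have := h.unit (A ∪ T) a
    omega

theorem rk_le_card (h : IsRank r) (h0 : r ∅ = 0) (A : Finset α) : r A ≤ A.card := by
  have := rk_union_le h h0 ∅ A
  rw [empty_union, h0] at this
  omega

theorem rk_sub (h : IsRank r) (h0 : r ∅ = 0) {B S : Finset α} (hB : r B = B.card) (hS : S ⊆ B) :
    r S = S.card := by
  have h1 := rk_union_le h h0 S (B \ S)
  rw [union_sdiff_of_subset hS, card_sdiff_of_subset hS, hB] at h1
  have h2 := rk_le_card h h0 S
  have h3 := card_le_card hS
  omega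

/-- the subsets `S` of a basis which span the same set as some subset of the basis `B` -/
def Full (r : Finset α → ℕ) (B S : Finset α) : Prop :=
  ∃ T ⊆ B, T.card = S.card ∧ r (S ∪ T) ≤ S.card

theorem full_lat (h : IsRank r) (h0 : r ∅ = 0) {B0 B S S' : Finset α} (hB0 : r B0 = B0.card)
    (hB : r B = B.card) (hS : S ⊆ B0) (hS' : S' ⊆ B0) (f : Full r B S) (f' : Full r B S') :
    Full r B (S ∪ S') ∧ Full r B (S ∩ S') := by
  obtain ⟨T, hT, c, q⟩ := f
  obtain ⟨T', hT', c', q'⟩ := f'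
  have h1 := h.submod (S ∪ T) (S' ∪ T')
  have h2 : (S ∪ S').card ≤ r ((S ∪ T) ∪ (S' ∪ T')) := by
    rw [← rk_sub h h0 hB0 (union_subset hS hS')]
    exact h.mono _ _ (fun z hz => by simp only [mem_union] at hz ⊢; tauto)
  have h3 : (S ∩ S').card ≤ r ((S ∪ T) ∩ (S' ∪ T')) := by
    rw [← rk_sub h h0 hB0 (inter_subset_left.trans hS)]
    exact h.mono _ _ (fun z hz => by simp only [mem_union, mem_inter] at hz ⊢; tauto)
  have h4 : (T ∪ T').card ≤ r ((S ∪ T) ∪ (S' ∪ T')) := by
    rw [← rk_sub h h0 hB (union_subset hT hT')]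
    exact h.mono _ _ (fun z hz => by simp only [mem_union] at hz ⊢; tauto)
  have h5 : (T ∩ T').card ≤ r ((S ∪ T) ∩ (S' ∪ T')) := by
    rw [← rk_sub h h0 hB (inter_subset_left.trans hT)]
    exact h.mono _ _ (fun z hz => by simp only [mem_union, mem_inter] at hz ⊢; tauto)
  have h6 := card_union_add_card_inter S S'
  have h7 := card_union_add_card_inter T T'
  constructor
  · refine ⟨T ∪ T', union_subset hT hT', by omega, ?_⟩
    have e : S ∪ S' ∪ (T ∪ T') = (S ∪ T) ∪ (S' ∪ T') := by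
      ext z; simp only [mem_union]; tauto
    rw [e]
    omega
  · refine ⟨T ∩ T', inter_subset_left.trans hT, by omega, ?_⟩
    have h8 : r (S ∩ S' ∪ T ∩ T') ≤ r ((S ∪ T) ∩ (S' ∪ T')) :=
      h.mono _ _ (fun z hz => by simp only [mem_union, mem_inter] at hz ⊢; tauto)
    omega

theorem full_of_sep (h : IsRank r) (h0 : r ∅ = 0) {B0 B X : Finset α} (hB0 : r B0 = B0.card)
    (hB : r B = B.card) (hBB : Full r B B0) (hX : X ⊆ B0)
    (hsep : ∀ a ∈ X, ∀ b ∈ B0 \ X, ∃ S ⊆ B0, Full r B S ∧ a ∈ S ∧ b ∉ S) : Full r B X := by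
  have h1 : ∀ a ∈ X, ∀ Z ⊆ B0 \ X, ∃ Y ⊆ B0, Full r B Y ∧ a ∈ Y ∧ Disjoint Y Z := by
    intro a ha Z
    induction Z using Finset.induction_on with
    | empty => exact fun _ => ⟨B0, Subset.rfl, hBB, hX ha, disjoint_empty_right _⟩
    | insert b Z hb ih =>
      intro hZ
      obtain ⟨Y, y1, y2, y3, y4⟩ := ih ((subset_insert _ _).trans hZ)
      obtain ⟨S, s1, s2, s3, s4⟩ := hsep a ha b (hZ (mem_insert_self _ _))
      refine ⟨Y ∩ S, inter_subset_left.trans y1, (full_lat h h0 hB0 hB y1 s1 y2 s2).2,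
        mem_inter.2 ⟨y3, s3⟩, ?_⟩
      rw [disjoint_insert_right]
      exact ⟨fun hh => s4 (mem_inter.1 hh).2, y4.mono_left inter_subset_left⟩
  have h2 : ∀ W ⊆ X, ∃ Y, W ⊆ Y ∧ Y ⊆ X ∧ Full r B Y := by
    intro W
    induction W using Finset.induction_on with
    | empty => exact fun _ => ⟨∅, Subset.rfl, empty_subset _, ∅, empty_subset _, rfl, by simp [h0]⟩
    | insert a W ha ih =>
      intro hW
      obtain ⟨Y, y1, y2, y3⟩ := ih ((subset_insert _ _).trans hW)
      obtain ⟨Y', z1, z2, z3, z4⟩ := h1 a (hW (mem_insert_self _ _)) (B0 \ X) Subset.rfl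
      have hY' : Y' ⊆ X := by
        intro c hc
        by_contra hcX
        exact disjoint_left.1 z4 hc (mem_sdiff.2 ⟨z1 hc, hcX⟩)
      refine ⟨Y ∪ Y', ?_, union_subset y2 hY', (full_lat h h0 hB0 hB (y2.trans hX) z1 y3 z2).1⟩
      exact insert_subset (mem_union_right _ z3) (y1.trans subset_union_left)
  obtain ⟨Y, y1, y2, y3⟩ := h2 X Subset.rfl
  rwa [Subset.antisymm y1 y2]

/-- sets with the same span -/
theorem rk_biUnion (h : IsRank r) {ι : Type} [DecidableEq ι] {X F0 : Finset α} (T : ι → Finset α)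
    (hX0 : X ⊆ F0) (hF0 : r F0 ≤ r X) (hT : ∀ j, r (X ∪ T j) ≤ r X) (J : Finset ι) :
    r (F0 ∪ J.biUnion T) ≤ r X := by
  induction J using Finset.induction_on with
  | empty => simpa using hF0
  | insert j J hj ih =>
    have h1 := h.submod (F0 ∪ J.biUnion T) (X ∪ T j)
    have h2 : r X ≤ r ((F0 ∪ J.biUnion T) ∩ (X ∪ T j)) :=
      h.mono _ _ (subset_inter (hX0.trans subset_union_left) subset_union_left)
    have e : F0 ∪ (insert j J).biUnion T ⊆ (F0 ∪ J.biUnion T) ∪ (X ∪ T j) := by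
      rw [biUnion_insert]
      intro z hz
      simp only [mem_union] at hz ⊢
      tauto
    have h3 := h.mono _ _ e
    have h4 := hT j
    omega

end Pool.Agent.N609.WH
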