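import Pool.Agent.N609.WH.Stm

/-!
# Project WH (helper609), part DEG: reduction of the degree for tuples
-/

set_option autoImplicit false

namespace Pool.Agent.N609.WH.Deg

open Finset Pool.Agent.N609.WH

variable {α : Type} [DecidableEq α]

/-- one step -/
def Step (IsB : Finset α → Prop) (D n : ℕ) (T T' : Fin n → Finset α) : Prop :=
  (∀ i, IsB (T' i)) ∧ ∑ i, (T' i).val = ∑ i, (T i).val ∧
    (univ.filter (fun i => T i ≠ T' i)).card ≤ D

/-- insertion of a fixed member -/
def ins {m : ℕ} (i : Fin (m + 1)) (X : Finset α) (t : Fin m → Finset α) : Fin (m + 1) → Finset α :=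
  Fin.insertNth (α := fun _ => Finset α) i X t

omit [DecidableEq α] in
theorem ins_same {m : ℕ} (i : Fin (m + 1)) (X : Finset α) (t : Fin m → Finset α) :
    ins i X t i = X := Fin.insertNth_apply_same (α := fun _ => Finset α) i X t

omit [DecidableEq α] in
theorem ins_above {m : ℕ} (i : Fin (m + 1)) (X : Finset α) (t : Fin m → Finset α) (k : Fin m) :
    ins i X t (i.succAbove k) = t k :=
  Fin.insertNth_apply_succAbove (α := fun _ => Finset α) i X t k

omit [DecidableEq α] in
theorem ins_eq {m : ℕ} (i : Fin (m + 1)) (T : Fin (m + 1) → Finset α) :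
    ins i (T i) (fun k => T (i.succAbove k)) = T := by
  have h : ∀ k, ins i (T i) (fun k => T (i.succAbove k)) k = T k := by
    rw [Fin.forall_iff_succAbove i]
    exact ⟨ins_same _ _ _, fun k => ins_above _ _ _ _⟩
  exact funext h

omit [DecidableEq α] in
theorem sum_ins {m : ℕ} (i : Fin (m + 1)) (X : Finset α) (t : Fin m → Finset α) :
    ∑ k, (ins i X t k).val = X.val + ∑ k, (t k).val := by
  rw [Fin.sum_univ_succAbove _ i, ins_same]
  congr 1
  exact Finset.sum_congr rfl fun k _ => by rw [ins_above]

theorem step_ins (IsB : Finset α → Prop) (D : ℕ) {m : ℕ} (i : Fin (m + 1)) (X : Finset α)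
    (hX : IsB X) (a b : Fin m → Finset α) (h : Step IsB D m a b) :
    Step IsB D (m + 1) (ins i X a) (ins i X b) := by
  obtain ⟨h1, h2, h3⟩ := h
  refine ⟨?_, ?_, ?_⟩
  · rw [Fin.forall_iff_succAbove i]
    refine ⟨by rw [ins_same]; exact hX, fun k => ?_⟩
    rw [ins_above]
    exact h1 k
  · rw [sum_ins, sum_ins, h2]
  · have hsub : univ.filter (fun k => ins i X a k ≠ ins i X b k) ⊆
        (univ.filter (fun k => a k ≠ b k)).image i.succAbove := by
      intro k hk
      rw [mem_filter] at hk
      have hki : k ≠ i := by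
        rintro rfl
        exact hk.2 (by rw [ins_same, ins_same])
      obtain ⟨l, rfl⟩ := Fin.exists_succAbove_eq hki
      rw [mem_image]
      refine ⟨l, ?_, rfl⟩
      rw [mem_filter]
      refine ⟨mem_univ _, ?_⟩
      have := hk.2
      rwa [ins_above, ins_above] at this
    exact (card_le_card hsub).trans (card_image_le.trans h3)

/-- the induction step for two tuples with a common member -/
theorem connect (IsB : Finset α → Prop) (D : ℕ) (hD : 2 ≤ D) (m : ℕ)
    (ih : ∀ B C : Fin m → Finset α, (∀ i, IsB (B i)) → (∀ i, IsB (C i)) →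
      ∑ i, (B i).val = ∑ i, (C i).val → Relation.ReflTransGen (Step IsB D m) B C)
    (T T' : Fin (m + 1) → Finset α) (hT : ∀ i, IsB (T i)) (hT' : ∀ i, IsB (T' i))
    (hs : ∑ i, (T' i).val = ∑ i, (T i).val) (i j : Fin (m + 1)) (hij : T i = T' j) :
    Relation.ReflTransGen (Step IsB D (m + 1)) T T' := by
  obtain ⟨T'', hT''⟩ : ∃ T'' : Fin (m + 1) → Finset α, T'' = fun k => T' (Equiv.swap i j k) :=
    ⟨_, rfl⟩
  have hsum : ∑ k, (T'' k).val = ∑ k, (T' k).val := by
    rw [hT'']
    exact Equiv.sum_comp (Equiv.swap i j) (fun k => (T' k).val)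
  have hi : T'' i = T i := by
    rw [hT'', hij]
    show T' (Equiv.swap i j i) = T' j
    rw [Equiv.swap_apply_left]
  have hB : ∀ k, IsB (T'' k) := by
    intro k
    rw [hT'']
    exact hT' _
  -- first part
  have h1 : Relation.ReflTransGen (Step IsB D (m + 1)) T T'' := by
    have e1 := Fin.sum_univ_succAbove (fun k => (T k).val) i
    have e2 := Fin.sum_univ_succAbove (fun k => (T'' k).val) i
    have hs2 : ∑ k : Fin m, (T (i.succAbove k)).val = ∑ k : Fin m, (T'' (i.succAbove k)).val := by
      rw [hsum, hs] at e2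
      rw [e2] at e1
      rw [hi] at e1
      exact (add_left_cancel e1).symm
    have h2 := ih (fun k => T (i.succAbove k)) (fun k => T'' (i.succAbove k)) (fun k => hT _)
      (fun k => hB _) hs2
    have h3 : Relation.ReflTransGen (Step IsB D (m + 1)) (ins i (T i) (fun k => T (i.succAbove k)))
        (ins i (T i) (fun k => T'' (i.succAbove k))) :=
      Relation.ReflTransGen.lift (p := Step IsB D (m + 1)) (ins i (T i))
        (fun a b hab => step_ins IsB D i (T i) (hT i) a b hab) _ _ h2
    rw [ins_eq] at h3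
    have e3 : ins i (T i) (fun k => T'' (i.succAbove k)) = T'' := by
      rw [← hi]
      exact ins_eq i T''
    rw [e3] at h3
    exact h3
  refine h1.tail ⟨hT', hsum.symm, ?_⟩
  have hsub : univ.filter (fun k => T'' k ≠ T' k) ⊆ {i, j} := by
    intro k hk
    rw [mem_filter] at hk
    by_contra hcon
    rw [mem_insert, mem_singleton, not_or] at hcon
    refine hk.2 ?_
    rw [hT'']
    show T' (Equiv.swap i j k) = T' k
    rw [Equiv.swap_apply_of_ne_of_ne hcon.1 hcon.2]
  exact (card_le_card hsub).trans (card_le_two.trans hD)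

theorem t_DEG : Pool.Agent.N609.WH.S_DEG := by
  intro α _ IsB D hD H n
  show ∀ B C : Fin n → Finset α, (∀ i, IsB (B i)) → (∀ i, IsB (C i)) →
      ∑ i, (B i).val = ∑ i, (C i).val → Relation.ReflTransGen (Step IsB D n) B C
  have small : ∀ n ≤ D, ∀ B C : Fin n → Finset α, (∀ i, IsB (B i)) → (∀ i, IsB (C i)) →
      ∑ i, (B i).val = ∑ i, (C i).val → Relation.ReflTransGen (Step IsB D n) B C := by
    intro n hn B C _ hC hs
    refine Relation.ReflTransGen.single ⟨hC, hs.symm, ?_⟩
    refine (card_le_univ _).trans ?_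
    rw [Fintype.card_fin]
    exact hn
  induction n with
  | zero => exact small 0 (Nat.zero_le _)
  | succ m ih =>
    by_cases hm : m + 1 ≤ D
    · exact small (m + 1) hm
    · intro B C hB hC hs
      have key : ∀ T : Fin (m + 1) → Finset α, Relation.ReflTransGen
          (fun T T' : Fin (m + 1) → Finset α => (∀ i, IsB (T' i)) ∧
            ∑ i, (T' i).val = ∑ i, (T i).val ∧ ∃ i j, T i = T' j) B T →
          (∀ i, IsB (T i)) ∧ Relation.ReflTransGen (Step IsB D (m + 1)) B T := by
        intro T hT
        induction hT with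
        | refl => exact ⟨hB, Relation.ReflTransGen.refl⟩
        | tail _ hbc ih2 =>
          obtain ⟨h1, h2, i, j, h3⟩ := hbc
          exact ⟨h1, ih2.2.trans (connect IsB D hD m ih _ _ ih2.1 h1 h2 i j h3)⟩
      exact (key C (H (m + 1) (by omega) B C hB hC hs)).2

end Pool.Agent.N609.WH.Deg
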