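import Pool.Agent.N609.WH.Main

/-!
# Complementary bases: one step towards a perfect basis
-/

set_option autoImplicit false

namespace Pool.Agent.N609.WH

open Finset Pool.Agent.R31.Partition

variable {α : Type} [DecidableEq α] {r : Finset α → ℕ}

theorem cl_mono (h : IsRank r) {A A' : Finset α} {b : α} (hA : A ⊆ A')
    (hb : r (insert b A) ≤ r A) : r (insert b A') ≤ r A' := by
  have h1 := h.submod (insert b A) A'
  have h2 : r A ≤ r (insert b A ∩ A') := h.mono _ _ (subset_inter (subset_insert _ _) hA)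
  have h3 : insert b A ∪ A' = insert b A' := by
    rw [insert_union, union_eq_right.2 hA]
  rw [h3] at h1
  omega

theorem cl_set (h : IsRank r) {A : Finset α} (Z : Finset α) (hZ : ∀ b ∈ Z, r (insert b A) ≤ r A) :
    r (A ∪ Z) ≤ r A := by
  induction Z using Finset.induction_on with
  | empty => simp
  | insert b Z hb ih =>
    have h1 := ih (fun c hc => hZ c (mem_insert_of_mem hc))
    have h2 := cl_mono h (subset_union_left : A ⊆ A ∪ Z) (hZ b (mem_insert_self _ _))
    rw [union_insert]
    omega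

/-- intersections of independent sets with `g` in their closure -/
theorem cl_inter (h : IsRank r) (h0 : r ∅ = 0) {B : Finset α} (hB : r B = B.card) {g : α}
    (hg : r (insert g B) ≤ B.card) (Z : Finset α)
    (hZ : ∀ b ∈ Z, r (insert g (B.erase b)) ≤ (B.erase b).card) :
    r (insert g (B \ Z)) ≤ (B \ Z).card := by
  induction Z using Finset.induction_on with
  | empty => simpa using hg
  | insert b Z hb ih =>
    have ih' := ih (fun c hc => hZ c (mem_insert_of_mem hc))
    have h1 := h.submod (insert g (B \ Z)) (insert g (B.erase b))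
    have h2 := hZ b (mem_insert_self _ _)
    have e : B \ insert b Z = (B \ Z) ∩ B.erase b := by
      ext z
      simp only [mem_sdiff, mem_insert, mem_inter, mem_erase]
      tauto
    have h3 : ((B \ Z) ∪ B.erase b).card ≤ r (insert g (B \ Z) ∪ insert g (B.erase b)) := by
      rw [← rk_sub h h0 hB (union_subset sdiff_subset (erase_subset _ _))]
      exact h.mono _ _ (union_subset_union (subset_insert _ _) (subset_insert _ _))
    have h4 : r (insert g ((B \ Z) ∩ B.erase b)) ≤ r (insert g (B \ Z) ∩ insert g (B.erase b)) :=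
      h.mono _ _ (fun z hz => by
        simp only [mem_insert, mem_inter] at hz ⊢
        tauto)
    have h5 := card_union_add_card_inter (B \ Z) (B.erase b)
    rw [e]
    omega

theorem exch (h : IsRank r) (h0 : r ∅ = 0) {E B G : Finset α} {R q : ℕ} (hq : 1 ≤ q)
    (hR : ∀ F ⊆ E, r F ≤ R) (hBE : B ⊆ E) (hBc : B.card = R) (hBr : r B = R)
    (hcomp : ∀ F ⊆ E \ B, F.card ≤ q * r F) (hGE : G ⊆ E) (hGc : G.card = R) (hGr : r G = R)
    (hperf : ∀ F ⊆ E, F.card = q * r F → ∃ T ⊆ G, T.card = r F ∧ r (F ∪ T) ≤ r F)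
    {g : α} (hgG : g ∈ G) (hgB : g ∉ B) :
    ∃ b ∈ B, b ∉ G ∧ r (insert g (B.erase b)) = R ∧
      ∀ F ⊆ E \ insert g (B.erase b), F.card ≤ q * r F := by
  classical
  have hBB : r B = B.card := by rw [hBr, hBc]
  have hGG : r G = G.card := by rw [hGr, hGc]
  have hgE : g ∈ E := hGE hgG
  have hcard1 : ∀ b ∈ B, (B.erase b).card = R - 1 := fun b hb => by
    rw [card_erase_of_mem hb, hBc]
  have hle : ∀ b ∈ B, r (insert g (B.erase b)) ≤ R := fun b hb =>
    hR _ (insert_subset hgE ((erase_subset _ _).trans hBE))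
  set C := B.filter (fun b => r (insert g (B.erase b)) = R) with hC
  have hCB : C ⊆ B := filter_subset _ _
  have hgC : r (insert g C) ≤ C.card := by
    have h1 := cl_inter h h0 hBB (g := g)
      (by rw [hBc]; exact hR _ (insert_subset hgE hBE)) (B \ C) (by
        intro b hb
        obtain ⟨hb1, hb2⟩ := mem_sdiff.1 hb
        have h2 : r (insert g (B.erase b)) ≠ R := fun e => hb2 (mem_filter.2 ⟨hb1, e⟩)
        have h3 := hle b hb1
        rw [hcard1 b hb1]
        omega)
    rwa [Finset.sdiff_sdiff_eq_self hCB] at h1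
  by_contra hcon
  push Not at hcon
  -- blocking sets
  have hblock : ∀ Z ⊆ C \ G, ∃ W ⊆ E \ B, g ∉ W ∧ W.card = q * r W ∧
      ∀ b ∈ Z, r (insert b W) ≤ r W := by
    intro Z
    induction Z using Finset.induction_on with
    | empty =>
      exact fun _ => ⟨∅, empty_subset _, notMem_empty _, by simp [h0], fun b hb =>
        absurd hb (notMem_empty b)⟩
    | insert b Z hb ih =>
      intro hZ
      obtain ⟨W, w1, w2, w3, w4⟩ := ih ((subset_insert _ _).trans hZ)
      obtain ⟨hbC, hbG⟩ := mem_sdiff.1 (hZ (mem_insert_self _ _))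
      obtain ⟨hbB, hbR⟩ := mem_filter.1 hbC
      obtain ⟨F, hF1, hF2⟩ := hcon b hbB hbG hbR
      have hFE : F ⊆ E := hF1.trans sdiff_subset
      have hgF : g ∉ F := fun hh => (mem_sdiff.1 (hF1 hh)).2 (mem_insert_self _ _)
      have hFB : ∀ z ∈ F, z ∈ B → z = b := by
        intro z hz hzB
        by_contra hzb
        exact (mem_sdiff.1 (hF1 hz)).2 (mem_insert_of_mem (mem_erase.2 ⟨hzb, hzB⟩))
      have hTE : F.erase b ⊆ E \ B := by
        intro z hz
        obtain ⟨z1, z2⟩ := mem_erase.1 hz
        exact mem_sdiff.2 ⟨hFE z2, fun hzB => z1 (hFB z z2 hzB)⟩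
      have hbF : b ∈ F := by
        by_contra hbF
        rw [erase_eq_of_notMem hbF] at hTE
        have := hcomp F hTE
        omega
      have h1 := hcomp _ hTE
      have h2 : r (F.erase b) ≤ r F := h.mono _ _ (erase_subset _ _)
      have h3 : q * r (F.erase b) ≤ q * r F := Nat.mul_le_mul_left _ h2
      have h4 : (F.erase b).card = F.card - 1 := card_erase_of_mem hbF
      have h5 : q * r (F.erase b) = q * r F := by omega
      have h6 : r (F.erase b) = r F := Nat.eq_of_mul_eq_mul_left (by omega) h5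
      set T := F.erase b with hT
      have hTc : T.card = q * r T := by omega
      have hbT : r (insert b T) ≤ r T := by
        rw [hT, insert_erase hbF, ← hT, h6]
      refine ⟨W ∪ T, union_subset w1 hTE, ?_, ?_, ?_⟩
      · rw [mem_union]
        rintro (hh | hh)
        · exact w2 hh
        · exact hgF (mem_of_mem_erase hh)
      · have h7 := h.submod W T
        have h8 := hcomp _ (union_subset w1 hTE)
        have h9 := hcomp _ (inter_subset_left.trans w1 : W ∩ T ⊆ E \ B)
        have h10 := card_union_add_card_inter W T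
        have h11 : q * (r (W ∪ T) + r (W ∩ T)) ≤ q * (r W + r T) := Nat.mul_le_mul_left _ h7
        rw [mul_add, mul_add] at h11
        omega
      · intro c hc
        rcases mem_insert.1 hc with hc | hc
        · rw [hc]
          exact cl_mono h subset_union_right hbT
        · exact cl_mono h subset_union_left (w4 c hc)
  obtain ⟨W, w1, w2, w3, w4⟩ := hblock (C \ G) Subset.rfl
  obtain ⟨T, t1, t2, t3⟩ := hperf W (w1.trans sdiff_subset) w3
  -- `g` is in the closure of `W ∪ (C ∩ G)`
  have h1 : r (insert g (W ∪ (C ∩ G) ∪ C)) ≤ r (W ∪ (C ∩ G) ∪ C) := by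
    apply cl_mono h (subset_union_right : C ⊆ W ∪ (C ∩ G) ∪ C)
    rw [rk_sub h h0 hBB hCB]
    exact hgC
  have h2 : r (W ∪ (C ∩ G) ∪ C) ≤ r (W ∪ (C ∩ G)) := by
    apply cl_set h
    intro b hb
    by_cases hbG : b ∈ G
    · rw [insert_eq_of_mem (mem_union_right _ (mem_inter.2 ⟨hb, hbG⟩))]
    · exact cl_mono h subset_union_left (w4 b (mem_sdiff.2 ⟨hb, hbG⟩))
  have h3 : r (insert g (W ∪ (C ∩ G))) ≤ r (W ∪ (C ∩ G)) := by
    refine (h.mono _ _ (insert_subset_insert _ subset_union_left)).trans (h1.trans h2)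
  have h4 : r (insert g (W ∪ (C ∩ G) ∪ (T ∪ (C ∩ G)))) ≤ r (W ∪ (C ∩ G) ∪ (T ∪ (C ∩ G))) :=
    cl_mono h subset_union_left h3
  have h5 : r (W ∪ (C ∩ G) ∪ (T ∪ (C ∩ G))) ≤ r (T ∪ (C ∩ G)) := by
    have h6 := h.submod (W ∪ T) (T ∪ (C ∩ G))
    have h7 : T.card ≤ r ((W ∪ T) ∩ (T ∪ (C ∩ G))) := by
      rw [← rk_sub h h0 hGG t1]
      exact h.mono _ _ (subset_inter subset_union_right subset_union_left)
    have e : W ∪ (C ∩ G) ∪ (T ∪ (C ∩ G)) = (W ∪ T) ∪ (T ∪ (C ∩ G)) := by
      ext z
      simp only [mem_union]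
      tauto
    rw [e]
    omega
  have hA2 : T ∪ (C ∩ G) ⊆ G := union_subset t1 inter_subset_right
  have h6 : r (insert g (T ∪ (C ∩ G))) ≤ r (T ∪ (C ∩ G)) :=
    (h.mono _ _ (insert_subset_insert _ subset_union_right)).trans (h4.trans h5)
  rw [rk_sub h h0 hGG hA2, rk_sub h h0 hGG (insert_subset hgG hA2)] at h6
  have h7 : g ∈ T ∪ (C ∩ G) := by
    by_contra hh
    rw [card_insert_of_notMem hh] at h6
    omega
  rcases mem_union.1 h7 with h8 | h8
  · have h9 : r (insert g W) ≤ r W := by
      refine (h.mono _ _ ?_).trans t3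
      exact insert_subset (mem_union_right _ h8) subset_union_left
    have h10 := hcomp (insert g W) (insert_subset (mem_sdiff.2 ⟨hgE, hgB⟩) w1)
    rw [card_insert_of_notMem w2] at h10
    have h11 : q * r (insert g W) ≤ q * r W := Nat.mul_le_mul_left _ h9
    omega
  · exact hgB (hCB (mem_inter.1 h8).1)

end Pool.Agent.N609.WH
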