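import Mathlib
import Pool.Agent.R31.Partition

/-!
# White's conjecture in high degrees: definitions and statements
-/

set_option autoImplicit false

namespace Pool.Agent.N609.WH

open Finset Pool.Agent.R31.Partition

/-- `T` is a partition of `E` into bases (`R` = rank) for the rank function `r` -/
structure Part {β ι : Type} [DecidableEq β] [Fintype ι] (r : Finset β → ℕ) (E : Finset β) (R : ℕ)
    (T : ι → Finset β) : Prop where
  card : ∀ i, (T i).card = R
  rk : ∀ i, r (T i) = R
  disj : ∀ i j, i ≠ j → Disjoint (T i) (T j)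
  union : univ.biUnion T = E

/-- two partitions with a common basis -/
def PRel {β ι : Type} [DecidableEq β] [Fintype ι] (r : Finset β → ℕ) (E : Finset β) (R : ℕ)
    (T T' : ι → Finset β) : Prop :=
  Part r E R T ∧ Part r E R T' ∧ ∃ i j, T i = T' j

/-- all partitions into `k` bases are connected -/
def S_PART (R k : ℕ) : Prop :=
  ∀ (β : Type) [DecidableEq β] (r : Finset β → ℕ), IsRank r → r ∅ = 0 → ∀ E : Finset β,
    (∀ F ⊆ E, r F ≤ R) → ∀ S S' : Fin k → Finset β, Part r E R S → Part r E R S' →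
      Relation.ReflTransGen (PRel r E R) S S'

/-- tuples of bases of a matroid with the same multiset union -/
def S_LAB : Prop :=
  ∀ (R k : ℕ), S_PART R k → ∀ (α : Type) [DecidableEq α] (M : Matroid α), M.eRank = R →
    ∀ B C : Fin k → Finset α, (∀ i, M.IsBase (B i : Set α)) → (∀ i, M.IsBase (C i : Set α)) →
      ∑ i, (B i).val = ∑ i, (C i).val →
        Relation.ReflTransGen (fun T T' : Fin k → Finset α => (∀ i, M.IsBase (T' i : Set α)) ∧
          ∑ i, (T' i).val = ∑ i, (T i).val ∧ ∃ i j, T i = T' j) B C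

/-- reduction of the degree -/
def S_DEG : Prop :=
  ∀ (α : Type) [DecidableEq α] (IsB : Finset α → Prop) (D : ℕ), 2 ≤ D →
    (∀ k : ℕ, D + 1 ≤ k → ∀ B C : Fin k → Finset α, (∀ i, IsB (B i)) → (∀ i, IsB (C i)) →
      ∑ i, (B i).val = ∑ i, (C i).val →
        Relation.ReflTransGen (fun T T' : Fin k → Finset α => (∀ i, IsB (T' i)) ∧
          ∑ i, (T' i).val = ∑ i, (T i).val ∧ ∃ i j, T i = T' j) B C) →
    ∀ (n : ℕ) (B C : Fin n → Finset α), (∀ i, IsB (B i)) → (∀ i, IsB (C i)) →
      ∑ i, (B i).val = ∑ i, (C i).val →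
        Relation.ReflTransGen (fun T T' : Fin n → Finset α => (∀ i, IsB (T' i)) ∧
          ∑ i, (T' i).val = ∑ i, (T i).val ∧ (univ.filter (fun i => T i ≠ T' i)).card ≤ D) B C

end Pool.Agent.N609.WH
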