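import Mathlib
import Pool.Agent.N609.WH.Stm

/-!
# White's conjecture in high degrees: labels (helper424)

From partitions into bases to tuples of bases with the same multiset union. The lemmas on the rank
function of a matroid are copies of those of `Pool.Agent.N609.WH.Mat`.
-/

set_option autoImplicit false

namespace Pool.Agent.N609.WH.Lab

open Finset Pool.Agent.R31.Partition

variable {α : Type}

/-- The rank of a finite set. -/
noncomputable def rk (M : Matroid α) (F : Finset α) : ℕ := (M.eRk (F : Set α)).toNat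

theorem coe_rk (M : Matroid α) (F : Finset α) : ((rk M F : ℕ) : ℕ∞) = M.eRk (F : Set α) := by
  unfold rk
  apply ENat.natCast_toNat
  have h1 : M.eRk (F : Set α) ≤ (F : Set α).encard := M.eRk_le_encard _
  rw [Set.encard_coe_eq_coe_finsetCard] at h1
  exact ne_top_of_le_ne_top (ENat.natCast_ne_top _) h1

theorem isRank [DecidableEq α] (M : Matroid α) : IsRank (rk M) where
  mono A B h := by
    have : ((rk M A : ℕ) : ℕ∞) ≤ (rk M B : ℕ) := by
      rw [coe_rk, coe_rk]
      exact M.eRk_mono (coe_subset.2 h)
    exact_mod_cast this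
  submod A B := by
    have : ((rk M (A ∪ B) : ℕ) : ℕ∞) + (rk M (A ∩ B) : ℕ) ≤ (rk M A : ℕ) + (rk M B : ℕ) := by
      rw [coe_rk, coe_rk, coe_rk, coe_rk, coe_union, coe_inter, add_comm]
      exact M.eRk_inter_add_eRk_union_le _ _
    exact_mod_cast this
  unit A a := by
    have : ((rk M (insert a A) : ℕ) : ℕ∞) ≤ (rk M A : ℕ) + 1 := by
      rw [coe_rk, coe_rk, coe_insert]
      exact M.eRk_insert_le_add_one _ _
    exact_mod_cast this

theorem rk_empty (M : Matroid α) : rk M ∅ = 0 := by
  have : ((rk M ∅ : ℕ) : ℕ∞) = 0 := by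
    rw [coe_rk, coe_empty, M.eRk_empty]
  exact_mod_cast this

theorem rk_le_card (M : Matroid α) (F : Finset α) : rk M F ≤ F.card := by
  have h1 : M.eRk (F : Set α) ≤ (F : Set α).encard := M.eRk_le_encard _
  rw [Set.encard_coe_eq_coe_finsetCard, ← coe_rk] at h1
  exact_mod_cast h1

theorem rk_of_indep (M : Matroid α) {F : Finset α} (h : M.Indep (F : Set α)) : rk M F = F.card := by
  have : ((rk M F : ℕ) : ℕ∞) = F.card := by
    rw [coe_rk, h.eRk_eq_encard, Set.encard_coe_eq_coe_finsetCard]
  exact_mod_cast this

theorem indep_of_rk (M : Matroid α) {F : Finset α} (h : rk M F = F.card) :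
    M.Indep (F : Set α) := by
  rw [Matroid.indep_iff_eRk_eq_encard_of_finite F.finite_toSet, ← coe_rk, h,
    Set.encard_coe_eq_coe_finsetCard]

theorem base_of (M : Matroid α) {R : ℕ} (hr : M.eRank = R) {F : Finset α} (h : rk M F = F.card)
    (hc : F.card = R) : M.IsBase (F : Set α) := by
  refine (indep_of_rk M h).isBase_of_eRk_ge F.finite_toSet ?_
  rw [hr, ← coe_rk, h, hc]

theorem card_base (M : Matroid α) {R : ℕ} (hr : M.eRank = R) {F : Finset α}
    (hF : M.IsBase (F : Set α)) : F.card = R := by
  have h1 := hF.encard_eq_eRank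
  rw [hr, Set.encard_coe_eq_coe_finsetCard] at h1
  exact_mod_cast h1

variable [DecidableEq α] {k : ℕ}

/-- The rank function of the labelled elements. -/
noncomputable def rL (M : Matroid α) (A : Finset (Fin k × α)) : ℕ := rk M (A.image Prod.snd)

theorem isRank_rL (M : Matroid α) : IsRank (rL (k := k) M) where
  mono A B h := (isRank M).mono _ _ (image_subset_image h)
  submod A B := by
    unfold rL
    have h1 := (isRank M).submod (A.image Prod.snd) (B.image Prod.snd)
    have h2 := (isRank M).mono _ _ (image_inter_subset (Prod.snd : Fin k × α → α) A B)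
    rw [image_union]
    omega
  unit A a := by
    unfold rL
    rw [image_insert]
    exact (isRank M).unit _ _

theorem count_val (F : Finset α) (e : α) : Multiset.count e F.val = if e ∈ F then 1 else 0 := by
  split_ifs with h
  · exact Multiset.count_eq_one_of_mem F.nodup h
  · exact Multiset.count_eq_zero_of_notMem h

theorem count_sum (B : Fin k → Finset α) (e : α) :
    Multiset.count e (∑ i, (B i).val) = (univ.filter (fun i => e ∈ B i)).card := by
  rw [Multiset.count_sum', card_filter]
  exact sum_congr rfl fun i _ => count_val _ _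

/-- The bases of a partition, without the labels. -/
def V (S : Fin k → Finset (Fin k × α)) : Fin k → Finset α := fun i => (S i).image Prod.snd

section part

variable {M : Matroid α} {R : ℕ} {E : Finset (Fin k × α)} {S : Fin k → Finset (Fin k × α)}

theorem card_V (h : Part (rL M) E R S) (i : Fin k) : (V S i).card = R := by
  have h1 : rL M (S i) = R := h.rk i
  have h2 := rk_le_card M ((S i).image Prod.snd)
  have h3 : ((S i).image Prod.snd).card ≤ (S i).card := card_image_le
  have h4 := h.card i
  unfold rL at h1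
  unfold V
  omega

theorem base_V (hr : M.eRank = R) (h : Part (rL M) E R S) (i : Fin k) :
    M.IsBase (V S i : Set α) := by
  refine base_of M hr ?_ (card_V h i)
  rw [card_V h i]
  exact h.rk i

theorem inj_V (h : Part (rL M) E R S) (i : Fin k) :
    Set.InjOn Prod.snd (S i : Set (Fin k × α)) := by
  apply card_image_iff.1
  rw [h.card i]
  exact card_V h i

theorem count_V (h : Part (rL M) E R S) (e : α) :
    Multiset.count e (∑ i, (V S i).val) = (E.filter (fun p => p.2 = e)).card := by
  rw [Multiset.count_sum', ← h.union, filter_biUnion, card_biUnion]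
  · refine sum_congr rfl fun i _ => ?_
    rw [count_val]
    split_ifs with h1
    · obtain ⟨p, hp, hpe⟩ := mem_image.1 h1
      symm
      rw [card_eq_one]
      refine ⟨p, ?_⟩
      ext q
      rw [mem_filter, mem_singleton]
      constructor
      · rintro ⟨hq, hqe⟩
        exact inj_V h i hq hp (hqe.trans hpe.symm)
      · rintro rfl
        exact ⟨hp, hpe⟩
    · symm
      rw [card_eq_zero, filter_eq_empty_iff]
      intro p hp hpe
      exact h1 (mem_image.2 ⟨p, hp, hpe⟩)
  · intro i _ j _ hij
    exact disjoint_filter_filter (h.disj i j hij)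

theorem sum_V {S' : Fin k → Finset (Fin k × α)} (h : Part (rL M) E R S)
    (h' : Part (rL M) E R S') : ∑ i, (V S' i).val = ∑ i, (V S i).val := by
  rw [Multiset.ext]
  intro e
  rw [count_V h, count_V h']

end part

/-- The classes of a function on `E`. -/
def cls (E : Finset (Fin k × α)) (f : Fin k × α → Fin k) : Fin k → Finset (Fin k × α) :=
  fun j => E.filter (fun p => f p = j)

theorem part_of {M : Matroid α} {R : ℕ} (hr : M.eRank = R) {E : Finset (Fin k × α)}
    {f : Fin k × α → Fin k} {D : Fin k → Finset α} (hD : ∀ i, M.IsBase (D i : Set α))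
    (h1 : ∀ j, (cls E f j).image Prod.snd = D j)
    (h2 : ∀ j, Set.InjOn Prod.snd (cls E f j : Set (Fin k × α))) :
    Part (rL M) E R (cls E f) where
  card j := by
    rw [← card_image_of_injOn (h2 j), h1, card_base M hr (hD j)]
  rk j := by
    unfold rL
    rw [h1, rk_of_indep M (hD j).indep, card_base M hr (hD j)]
  disj i j hij := by
    rw [disjoint_left]
    intro p hp hq
    exact hij ((mem_filter.1 hp).2.symm.trans (mem_filter.1 hq).2)
  union := by
    ext p
    rw [mem_biUnion]
    constructor
    · rintro ⟨j, -, hj⟩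
      exact (mem_filter.1 hj).1
    · intro hp
      exact ⟨f p, mem_univ _, mem_filter.2 ⟨hp, rfl⟩⟩

theorem t_LAB : Pool.Agent.N609.WH.S_LAB := by
  intro R k hP α _ M hr B C hB hC hBC
  have hsg : ∀ e : α, ∃ s : Equiv.Perm (Fin k), ∀ i, e ∈ B i ↔ e ∈ C (s i) := by
    intro e
    have h1 : Fintype.card {i // e ∈ B i} = Fintype.card {j // e ∈ C j} := by
      rw [Fintype.card_subtype, Fintype.card_subtype, ← count_sum, ← count_sum, hBC]
    let g := Fintype.equivOfCardEq h1
    refine ⟨g.extendSubtype, fun i => ⟨fun h => g.extendSubtype_mem i h, fun h => ?_⟩⟩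
    by_contra hcon
    exact g.extendSubtype_not_mem i hcon h
  choose s hs using hsg
  let E : Finset (Fin k × α) := univ.biUnion (fun i => (B i).image (fun e => (i, e)))
  have hE : ∀ p : Fin k × α, p ∈ E ↔ p.2 ∈ B p.1 := by
    intro p
    rw [mem_biUnion]
    constructor
    · rintro ⟨i, -, hi⟩
      obtain ⟨e, he, rfl⟩ := mem_image.1 hi
      exact he
    · intro h
      exact ⟨p.1, mem_univ _, mem_image.2 ⟨p.2, h, rfl⟩⟩
  have hVB : ∀ j, (cls E Prod.fst j).image Prod.snd = B j := by
    intro j
    ext e
    rw [mem_image]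
    constructor
    · rintro ⟨p, hp, rfl⟩
      obtain ⟨h1, h2⟩ := mem_filter.1 hp
      rw [← h2]
      exact (hE p).1 h1
    · intro he
      exact ⟨(j, e), mem_filter.2 ⟨(hE _).2 he, rfl⟩, rfl⟩
  have hVC : ∀ j, (cls E (fun p => s p.2 p.1) j).image Prod.snd = C j := by
    intro j
    ext e
    rw [mem_image]
    constructor
    · rintro ⟨p, hp, rfl⟩
      obtain ⟨h1, h2⟩ := mem_filter.1 hp
      rw [← h2]
      exact (hs _ _).1 ((hE p).1 h1)
    · intro he
      refine ⟨((s e).symm j, e), mem_filter.2 ⟨(hE _).2 ?_, ?_⟩, rfl⟩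
      · rw [hs]
        simpa using he
      · simp
  have pB : Part (rL M) E R (cls E Prod.fst) := by
    refine part_of hr hB hVB fun j p hp q hq hpq => ?_
    have h1 := (mem_filter.1 (mem_coe.1 hp)).2
    have h2 := (mem_filter.1 (mem_coe.1 hq)).2
    exact Prod.ext (h1.trans h2.symm) hpq
  have pC : Part (rL M) E R (cls E (fun p => s p.2 p.1)) := by
    refine part_of hr hC hVC fun j p hp q hq hpq => ?_
    have h1 := (mem_filter.1 (mem_coe.1 hp)).2
    have h2 := (mem_filter.1 (mem_coe.1 hq)).2
    simp only at h1 h2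
    rw [← hpq] at h2
    exact Prod.ext ((s p.2).injective (h1.trans h2.symm)) hpq
  have hle : ∀ F ⊆ E, rL M F ≤ R := by
    intro F _
    have : ((rk M (F.image Prod.snd) : ℕ) : ℕ∞) ≤ R := by
      rw [coe_rk, ← hr]
      exact M.eRk_le_eRank _
    exact_mod_cast this
  have h0 : rL (k := k) M ∅ = 0 := by
    unfold rL
    rw [image_empty]
    exact rk_empty M
  have key := hP (Fin k × α) (rL M) (isRank_rL M) h0 E hle _ _ pB pC
  have eB : V (cls E Prod.fst) = B := funext hVB
  have eC : V (cls E (fun p => s p.2 p.1)) = C := funext hVC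
  rw [← eB, ← eC]
  refine key.lift V ?_
  rintro S S' ⟨h1, h2, i, j, hij⟩
  refine ⟨fun i => base_V hr h2 i, sum_V h1 h2, i, j, ?_⟩
  unfold V
  rw [hij]

end Pool.Agent.N609.WH.Lab
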