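import Pool.Agent.N609.WH.Core

/-!
# Disjoint bases: a common basis
-/

set_option autoImplicit false

namespace Pool.Agent.N609.WH

open Finset Pool.Agent.R31.Partition

variable {α : Type} [DecidableEq α] {r : Finset α → ℕ}

theorem core (h : IsRank r) (h0 : r ∅ = 0) {ι : Type} [Fintype ι] [DecidableEq ι] (o : ι)
    (B : ι → Finset α) (R : ℕ) (hc : ∀ i, (B i).card = R) (hB : ∀ i, r (B i) = R)
    (hdis : ∀ i j, i ≠ j → Disjoint (B i) (B j)) (x y : α) (hxB : ∀ i, x ∉ B i) (hy : y ∈ B o)
    (hR : ∀ F, F ⊆ insert x (univ.biUnion B) → r F ≤ R)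
    (hpack : ∀ F, F ⊆ insert x (univ.biUnion B) → y ∉ F → F.card ≤ Fintype.card ι * r F)
    (A : ι → Finset α) (hxA : ∀ i ≠ o, x ∈ A i) (hyA : ∀ i ≠ o, y ∉ A i)
    (hA : ∀ i ≠ o, ∀ j ≠ i, (A i ∩ B j).card = r (A i)) : Fintype.card ι ≤ R := by
  classical
  have hBc : ∀ i, r (B i) = (B i).card := fun i => by rw [hB, hc]
  have hsub : ∀ i, B i ⊆ insert x (univ.biUnion B) := fun i =>
    (subset_biUnion_of_mem B (mem_univ i)).trans (subset_insert _ _)
  have hxy : x ≠ y := fun e => hxB o (e ▸ hy)
  set S : ι → Finset α := fun i => A i ∩ B o with hS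
  have hSB : ∀ i, S i ⊆ B o := fun i => inter_subset_right
  have hSc : ∀ i ≠ o, (S i).card = r (A i) := fun i hi => hA i hi o hi.symm
  -- the sets `S i` are full for all other bases
  have hfull : ∀ i ≠ o, ∀ j ≠ i, Full r (B j) (S i) := by
    intro i hi j hj
    refine ⟨A i ∩ B j, inter_subset_right, ?_, ?_⟩
    · rw [hA i hi j hj, hSc i hi]
    · rw [hSc i hi]
      exact h.mono _ _ (union_subset inter_subset_left inter_subset_left)
  have hfull0 : ∀ j, Full r (B j) (B o) := by
    intro j
    refine ⟨B j, Subset.rfl, by rw [hc, hc], ?_⟩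
    rw [hc]
    exact hR _ (union_subset (hsub _) (hsub _))
  -- the intersection
  have hinter : ∀ J : Finset ι, o ∉ J →
      r (insert x ((B o).filter (fun b => ∀ i ∈ J, b ∈ S i))) ≤
        ((B o).filter (fun b => ∀ i ∈ J, b ∈ S i)).card := by
    intro J
    induction J using Finset.induction_on with
    | empty =>
      intro _
      have e : (B o).filter (fun b => ∀ i ∈ (∅ : Finset ι), b ∈ S i) = B o := by
        apply filter_true_of_mem
        intro b _ i hi
        exact absurd hi (notMem_empty i)
      rw [e, hc]
      exact hR _ (insert_subset_insert _ (subset_biUnion_of_mem B (mem_univ o)))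
    | insert j J hj ih =>
      intro ho
      have hoj : j ≠ o := fun e => ho (e ▸ mem_insert_self _ _)
      have ih' := ih (fun hh => ho (mem_insert_of_mem hh))
      set Q := (B o).filter (fun b => ∀ i ∈ J, b ∈ S i) with hQ
      have e : (B o).filter (fun b => ∀ i ∈ insert j J, b ∈ S i) = Q ∩ S j := by
        ext b
        simp only [mem_filter, mem_inter, hQ, mem_insert, forall_eq_or_imp]
        tauto
      rw [e]
      have hQB : Q ⊆ B o := filter_subset _ _
      have h1 := h.submod (insert x Q) (insert x (S j))
      have h2 : r (insert x (S j)) ≤ (S j).card := by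
        rw [hSc j hoj]
        exact h.mono _ _ (insert_subset (hxA j hoj) inter_subset_left)
      have h3 : (Q ∪ S j).card ≤ r (insert x Q ∪ insert x (S j)) := by
        rw [← rk_sub h h0 (hBc o) (union_subset hQB (hSB j))]
        exact h.mono _ _ (union_subset_union (subset_insert _ _) (subset_insert _ _))
      have h4 : r (insert x (Q ∩ S j)) ≤ r (insert x Q ∩ insert x (S j)) :=
        h.mono _ _ (fun z hz => by
          simp only [mem_insert, mem_inter] at hz ⊢
          tauto)
      have h5 := card_union_add_card_inter Q (S j)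
      omega
  set P := (B o).filter (fun b => ∀ i ∈ univ.erase o, b ∈ S i) with hP
  have hPx : r (insert x P) ≤ P.card := hinter (univ.erase o) (notMem_erase _ _)
  have hPB : P ⊆ B o := filter_subset _ _
  have hPS : ∀ i ≠ o, P ⊆ S i := fun i hi b hb =>
    (mem_filter.1 hb).2 i (mem_erase.2 ⟨hi, mem_univ _⟩)
  have hPpos : 0 < P.card := by
    rcases Nat.eq_zero_or_pos P.card with hz | hz
    · exfalso
      have e : P = ∅ := card_eq_zero.1 hz
      rw [hz, e] at hPx
      have := hpack {x} (singleton_subset_iff.2 (mem_insert_self _ _))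
        (fun hh => hxy (mem_singleton.1 hh).symm)
      have e2 : r {x} = 0 := by
        have : (insert x ∅ : Finset α) = {x} := rfl
        rw [this] at hPx
        omega
      rw [e2, card_singleton] at this
      omega
    · exact hz
  -- a maximal set
  set XX : Finset (Finset α) := (B o).powerset.filter (fun X => P ⊆ X ∧ ∃ J : Finset ι, o ∉ J ∧
    J.card + P.card ≤ X.card ∧ ∀ j, j ≠ o → j ∉ J → X ⊆ S j) with hXX
  have hne : XX.Nonempty := by
    refine ⟨P, mem_filter.2 ⟨mem_powerset.2 hPB, Subset.rfl, ∅, notMem_empty _, by simp, ?_⟩⟩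
    exact fun j hj _ => hPS j hj
  obtain ⟨X, hXm, hmax⟩ := XX.exists_max_image (fun X => X.card) hne
  obtain ⟨hXB, hPX, J, hoJ, hJc, hJ⟩ := mem_filter.1 hXm
  rw [mem_powerset] at hXB
  by_cases hyX : y ∈ X
  · have h1 : univ.erase o ⊆ J := by
      intro j hj
      by_contra hjJ
      have := hJ j (ne_of_mem_erase hj) hjJ hyX
      exact hyA j (ne_of_mem_erase hj) (mem_inter.1 this).1
    have h2 := card_le_card h1
    rw [card_erase_of_mem (mem_univ _), card_univ] at h2
    have h3 := card_le_card hXB
    rw [hc] at h3
    omega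
  · exfalso
    by_cases hsep : ∀ a ∈ X, ∀ b ∈ B o \ X, ∃ i1 i2 : ι, i1 ≠ i2 ∧ (i1 ≠ o ∧ a ∈ S i1 ∧ b ∉ S i1) ∧
        (i2 ≠ o ∧ a ∈ S i2 ∧ b ∉ S i2)
    · have hfX : ∀ j, Full r (B j) X := by
        intro j
        apply full_of_sep h h0 (hBc o) (hBc j) (hfull0 j) hXB
        intro a ha b hb
        obtain ⟨i1, i2, hi, ⟨p1, p2, p3⟩, ⟨q1, q2, q3⟩⟩ := hsep a ha b hb
        by_cases hji : j = i1
        · exact ⟨S i2, hSB _, hfull i2 q1 j (hji ▸ hi), q2, q3⟩
        · exact ⟨S i1, hSB _, hfull i1 p1 j hji, p2, p3⟩
      choose T hT1 hT2 hT3 using hfX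
      have hrX : r X = X.card := rk_sub h h0 (hBc o) hXB
      set T' : ι → Finset α := fun j => if j = o then X else T j with hT'
      have hT'B : ∀ j, T' j ⊆ B j := by
        intro j
        simp only [hT']
        split_ifs with hjo
        · rw [hjo]; exact hXB
        · exact hT1 j
      have hT'c : ∀ j, (T' j).card = X.card := by
        intro j
        simp only [hT']
        split_ifs with hjo
        · rfl
        · exact hT2 j
      have hT'r : ∀ j, r (X ∪ T' j) ≤ r X := by
        intro j
        simp only [hT']
        split_ifs with hjo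
        · rw [union_self]
        · rw [hrX]; exact hT3 j
      have hxX : r (insert x X) ≤ r X := by
        have h1 := rk_union_le h h0 (insert x P) (X \ P)
        rw [insert_union, union_sdiff_of_subset hPX, card_sdiff_of_subset hPX] at h1
        have h2 := card_le_card hPX
        rw [hrX]
        omega
      have h1 := rk_biUnion h T' (subset_insert x X) hxX hT'r univ
      have h2 : (univ.biUnion T').card = Fintype.card ι * X.card := by
        rw [card_biUnion]
        · rw [sum_congr rfl (fun j _ => hT'c j), sum_const, card_univ, smul_eq_mul]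
        · intro i _ j _ hij
          exact (hdis i j hij).mono (hT'B i) (hT'B j)
      have h3 : insert x (univ.biUnion T') ⊆ insert x (univ.biUnion B) :=
        insert_subset_insert _ (biUnion_mono (fun j _ => hT'B j))
      have h4 : y ∉ insert x (univ.biUnion T') := by
        rw [mem_insert, mem_biUnion]
        rintro (hh | ⟨j, -, hj⟩)
        · exact hxy hh.symm
        · by_cases hjo : j = o
          · simp only [hT', hjo, if_true] at hj
            exact hyX hj
          · exact disjoint_left.1 (hdis j o hjo) (hT'B j hj) hy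
      have h5 := hpack _ h3 h4
      have h6 : x ∉ univ.biUnion T' := by
        rw [mem_biUnion]
        rintro ⟨j, -, hj⟩
        exact hxB j (hT'B j hj)
      rw [card_insert_of_notMem h6, h2] at h5
      have h7 : r (insert x (univ.biUnion T')) ≤ X.card := by
        rw [← hrX]
        refine (h.mono _ _ ?_).trans h1
        exact insert_subset (mem_union_left _ (mem_insert_self _ _)) subset_union_right
      have h8 : Fintype.card ι * r (insert x (univ.biUnion T')) ≤ Fintype.card ι * X.card :=
        Nat.mul_le_mul_left _ h7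
      omega
    · push Not at hsep
      obtain ⟨a, ha, b, hb, hab⟩ := hsep
      rw [mem_sdiff] at hb
      set D : Finset ι := univ.filter (fun i => i ≠ o ∧ a ∈ S i ∧ b ∉ S i) with hD
      have hDc : D.card ≤ 1 := by
        rw [card_le_one]
        intro i hi j hj
        by_contra hij
        rw [hD, mem_filter] at hi hj
        exact hj.2.2.2 (hab i j hij hi.2 hj.2.1 hj.2.2.1)
      have hnew : insert b X ∈ XX := by
        refine mem_filter.2 ⟨mem_powerset.2 (insert_subset hb.1 hXB),
          hPX.trans (subset_insert _ _), J ∪ D, ?_, ?_, ?_⟩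
        · rw [mem_union]
          rintro (hh | hh)
          · exact hoJ hh
          · exact (mem_filter.1 hh).2.1 rfl
        · rw [card_insert_of_notMem hb.2]
          have := card_union_le J D
          omega
        · intro j hj hjJ
          rw [mem_union, not_or] at hjJ
          have h1 := hJ j hj hjJ.1
          refine insert_subset ?_ h1
          by_contra hbj
          exact hjJ.2 (mem_filter.2 ⟨mem_univ _, hj, h1 ha, hbj⟩)
      have := hmax _ hnew
      simp only [card_insert_of_notMem hb.2] at this
      omega

end Pool.Agent.N609.WH
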