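import Pool.Agent.N609.WH.Exch
import Pool.Agent.N609.WH.Stm

/-!
# Perfect bases
-/

set_option autoImplicit false

namespace Pool.Agent.N609.WH

open Finset Pool.Agent.R31.Partition

variable {α : Type} [DecidableEq α] {r : Finset α → ℕ}

theorem card_eq_sum {ι : Type} [Fintype ι] {E : Finset α} {R : ℕ} {T : ι → Finset α}
    (hT : Part r E R T) {F : Finset α} (hF : F ⊆ E) : F.card = ∑ j, (F ∩ T j).card := by
  rw [← card_biUnion]
  · congr 1
    ext z
    rw [mem_biUnion]
    constructor
    · intro hz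
      have := hF hz
      rw [← hT.union, mem_biUnion] at this
      obtain ⟨j, hj, hzj⟩ := this
      exact ⟨j, hj, mem_inter.2 ⟨hz, hzj⟩⟩
    · rintro ⟨j, -, hj⟩
      exact (mem_inter.1 hj).1
  · intro i _ j _ hij
    exact (hT.disj i j hij).mono inter_subset_right inter_subset_right

theorem inter_le (h : IsRank r) (h0 : r ∅ = 0) {ι : Type} [Fintype ι] {E : Finset α} {R : ℕ}
    {T : ι → Finset α} (hT : Part r E R T) (F : Finset α) (j : ι) : (F ∩ T j).card ≤ r F := by
  rw [← rk_sub h h0 (by rw [hT.rk, hT.card] : r (T j) = (T j).card) inter_subset_right]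
  exact h.mono _ _ inter_subset_left

theorem perfect_exists (h : IsRank r) (h0 : r ∅ = 0) {ι : Type} [Fintype ι] [DecidableEq ι]
    {E : Finset α} {R q : ℕ} (hq : Fintype.card ι = q + 1) (hk : R ^ 3 + 1 ≤ Fintype.card ι)
    (hR : ∀ F ⊆ E, r F ≤ R) {T : ι → Finset α} (hT : Part r E R T) :
    ∃ l, ∀ F ⊆ E, F.card = q * r F → ∃ U ⊆ T l, U.card = r F ∧ r (F ∪ U) ≤ r F := by
  classical
  by_contra hcon
  push Not at hcon
  choose F hFE hFc hFno using hcon
  have hTE : ∀ j, T j ⊆ E := fun j => by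
    rw [← hT.union]
    exact subset_biUnion_of_mem T (mem_univ j)
  have hTT : ∀ j, r (T j) = (T j).card := fun j => by rw [hT.rk, hT.card]
  set bad : ι → Finset ι := fun l => univ.filter (fun j => (F l ∩ T j).card ≠ r (F l)) with hbad
  have hbadc : ∀ l, (bad l).card ≤ R := by
    intro l
    have h1 := card_eq_sum hT (hFE l)
    have h2 : ∑ j, ((F l ∩ T j).card + (if (F l ∩ T j).card ≠ r (F l) then 1 else 0)) ≤
        ∑ _j : ι, r (F l) := by
      apply sum_le_sum
      intro j _
      have h3 := inter_le h h0 hT (F l) j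
      split_ifs with h4
      · omega
      · omega
    rw [sum_add_distrib, ← h1, sum_const, card_univ, hq, smul_eq_mul, ← card_filter, hFc,
      add_mul, one_mul] at h2
    have h3 := hR _ (hFE l)
    have h4 : (bad l).card ≤ r (F l) := by
      change (univ.filter (fun j => (F l ∩ T j).card ≠ r (F l))).card ≤ r (F l)
      omega
    omega
  -- a good index
  obtain ⟨o, ho⟩ : ∃ o, (univ.filter (fun l => o ∈ bad l)).card ≤ R := by
    by_contra hno
    push Not at hno
    have h1 : ∑ o, (univ.filter (fun l => o ∈ bad l)).card = ∑ l, (bad l).card := by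
      have h2 : ∀ o, (univ.filter (fun l => o ∈ bad l)).card = ∑ l, if o ∈ bad l then 1 else 0 :=
        fun o => card_filter _ _
      have h3 : ∀ l, (bad l).card = ∑ o, if o ∈ bad l then 1 else 0 := by
        intro l
        rw [← card_filter]
        congr 1
        ext z
        simp
      rw [sum_congr rfl (fun o _ => h2 o), sum_comm]
      exact sum_congr rfl (fun l _ => (h3 l).symm)
    have h4 : ∑ l, (bad l).card ≤ ∑ _l : ι, R := sum_le_sum (fun l _ => hbadc l)
    have h5 : ∑ _o : ι, (R + 1) ≤ ∑ o, (univ.filter (fun l => o ∈ bad l)).card :=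
      sum_le_sum (fun o _ => hno o)
    rw [sum_const, card_univ, smul_eq_mul] at h4 h5
    have h6 : Fintype.card ι * (R + 1) = Fintype.card ι * R + Fintype.card ι := by ring
    omega
  set L := univ.filter (fun l => o ∉ bad l) with hL
  have hLc : Fintype.card ι ≤ L.card + R := by
    have h1 := card_filter_add_card_filter_not (s := (univ : Finset ι)) (fun l => o ∈ bad l)
    rw [card_univ] at h1
    rw [hL]
    omega
  set S : ι → Finset α := fun l => F l ∩ T o with hS
  have hSo : ∀ l, S l ⊆ T o := fun l => inter_subset_right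
  have hSc : ∀ l ∈ L, (S l).card = r (F l) := by
    intro l hl
    have h1 := (mem_filter.1 hl).2
    by_contra h2
    exact h1 (mem_filter.2 ⟨mem_univ _, h2⟩)
  have hfull : ∀ l ∈ L, ∀ j, j ∉ bad l → Full r (T j) (S l) := by
    intro l hl j hj
    have h1 : (F l ∩ T j).card = r (F l) := by
      by_contra h2
      exact hj (mem_filter.2 ⟨mem_univ _, h2⟩)
    refine ⟨F l ∩ T j, inter_subset_right, by rw [h1, hSc l hl], ?_⟩
    rw [hSc l hl]
    exact h.mono _ _ (union_subset inter_subset_left inter_subset_left)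
  have hnot : ∀ l ∈ L, ¬ Full r (T l) (S l) := by
    rintro l hl ⟨U, u1, u2, u3⟩
    have h1 := hFno l U u1 (by rw [u2, hSc l hl])
    have h2 := h.submod (F l) (S l ∪ U)
    have h3 : (S l).card ≤ r (F l ∩ (S l ∪ U)) := by
      rw [← rk_sub h h0 (hTT o) (hSo l)]
      exact h.mono _ _ (subset_inter inter_subset_left subset_union_left)
    have h4 : r (F l ∪ U) ≤ r (F l ∪ (S l ∪ U)) :=
      h.mono _ _ (union_subset_union_right subset_union_right)
    omega
  have hfull0 : ∀ j, Full r (T j) (T o) := by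
    intro j
    refine ⟨T j, Subset.rfl, by rw [hT.card, hT.card], ?_⟩
    rw [hT.card]
    exact hR _ (union_subset (hTE _) (hTE _))
  have hpair : ∀ l ∈ L, ∃ p : α × α, (p.1 ∈ T o ∧ p.2 ∈ T o ∧ p.1 ≠ p.2) ∧ p.1 ∈ S l ∧ p.2 ∉ S l ∧
      ∀ U ⊆ T o, Full r (T l) U → p.1 ∈ U → p.2 ∈ U := by
    intro l hl
    by_contra hno
    apply hnot l hl
    apply full_of_sep h h0 (hTT o) (hTT l) (hfull0 l) (hSo l)
    intro a ha b hb
    by_contra hno2
    apply hno
    obtain ⟨hb1, hb2⟩ := mem_sdiff.1 hb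
    refine ⟨(a, b), ⟨hSo l ha, hb1, fun (e : a = b) => hb2 (e ▸ ha)⟩, ha, hb2, fun U hU hUf haU => ?_⟩
    by_contra hbU
    exact hno2 ⟨U, hU, hUf, haU, hbU⟩
  have hR3 : R ≤ R ^ 3 := Nat.le_self_pow (by norm_num) R
  have hLne : L.Nonempty := card_pos.1 (by omega)
  obtain ⟨l0, hl0⟩ := hLne
  obtain ⟨p0, -⟩ := hpair l0 hl0
  have hne : Nonempty (α × α) := ⟨p0⟩
  choose! p hp1 hp2 hp3 hp4 using hpair
  have hmaps : ∀ l ∈ L, p l ∈ (T o).offDiag := fun l hl =>
    mem_offDiag.2 ⟨(hp1 l hl).1, (hp1 l hl).2.1, (hp1 l hl).2.2⟩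
  have hfib : ∀ c ∈ (T o).offDiag, (L.filter (fun l => p l = c)).card ≤ R := by
    intro c _
    rcases (L.filter (fun l => p l = c)).eq_empty_or_nonempty with he | ⟨j, hj⟩
    · rw [he]; simp
    · refine (card_le_card ?_).trans (hbadc j)
      intro l hl
      obtain ⟨hjL, hjc⟩ := mem_filter.1 hj
      obtain ⟨hlL, hlc⟩ := mem_filter.1 hl
      by_contra hlj
      have h1 := hfull j hjL l hlj
      have h2 := hp4 l hlL (S j) (hSo j) h1
      rw [hlc, ← hjc] at h2
      exact hp3 j hjL (h2 (hp2 j hjL))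
  have h1 := card_le_mul_card_image_of_maps_to hmaps R hfib
  rw [offDiag_card, hT.card] at h1
  obtain ⟨c, hc⟩ : ∃ c, R * R = R + c := by
    rcases Nat.eq_zero_or_pos R with hz | hz
    · exact ⟨0, by rw [hz]⟩
    · exact ⟨R * R - R, by have := Nat.le_mul_of_pos_left R hz; omega⟩
  have h2 : R * R - R = c := by omega
  rw [h2] at h1
  have h3 : R ^ 3 = R * R + R * c := by
    rw [pow_succ, pow_two, hc]
    ring_nf
    rw [pow_two, hc]
    ring
  omega

end Pool.Agent.N609.WH
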