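import Mathlib

/-!
# The toric ideal
-/

set_option autoImplicit false

namespace Pool.Agent.N609.WH

open Finset

universe u

/-- the map `y_B ↦ ∏ e ∈ B, x_e` -/
noncomputable def phi (K : Type u) [Field K] {α : Type} (IsB : Finset α → Prop) :
    MvPolynomial {B : Finset α // IsB B} K →ₐ[K] MvPolynomial α K :=
  MvPolynomial.aeval fun B => ∏ e ∈ B.1, MvPolynomial.X e

/-- from tuples to the toric ideal -/
def S_TOR : Prop :=
  ∀ (α : Type) [DecidableEq α] (IsB : Finset α → Prop) (R D : ℕ), 0 < R →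
    (∀ B, IsB B → B.card = R) →
    (∀ (n : ℕ) (B C : Fin n → Finset α), (∀ i, IsB (B i)) → (∀ i, IsB (C i)) →
      ∑ i, (B i).val = ∑ i, (C i).val →
        Relation.ReflTransGen (fun T T' : Fin n → Finset α => (∀ i, IsB (T' i)) ∧
          ∑ i, (T' i).val = ∑ i, (T i).val ∧ (univ.filter (fun i => T i ≠ T' i)).card ≤ D) B C) →
    ∀ (K : Type u) [Field K], RingHom.ker (phi K IsB) =
      Ideal.span {f | f ∈ RingHom.ker (phi K IsB) ∧ ∃ d ≤ D, f.IsHomogeneous d}

end Pool.Agent.N609.WH
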