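import Mathlib
import Pool.Agent.N609.WH.Stm2

/-!
# From tuples of bases to the toric ideal
-/

set_option autoImplicit false

namespace Pool.Agent.N609.WH.Tor

open Finset MvPolynomial

universe u

section

variable {α : Type} [DecidableEq α] (IsB : Finset α → Prop)

/-- the content of a monomial -/
noncomputable def con : ({B : Finset α // IsB B} →₀ ℕ) →+ Multiset α :=
  Finsupp.liftAddHom fun B => (multiplesHom (Multiset α) B.1.val : ℕ →+ Multiset α)

omit [DecidableEq α] in
lemma con_single (B : {B : Finset α // IsB B}) (k : ℕ) :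
    con IsB (Finsupp.single B k) = k • B.1.val := by
  unfold con
  rw [Finsupp.liftAddHom_apply_single, multiplesHom_apply]

lemma prod_X (K : Type u) [Field K] (B : Finset α) :
    ∏ e ∈ B, (X e : MvPolynomial α K) = monomial (Multiset.toFinsupp B.val) 1 := by
  have h : Multiset.toFinsupp B.val = ∑ e ∈ B, Finsupp.single e 1 := by
    rw [← Finset.sum_multiset_singleton, map_sum]
    exact Finset.sum_congr rfl fun e _ => Multiset.toFinsupp_singleton e
  rw [h, monomial_sum_one]
  rfl

lemma phi_X (K : Type u) [Field K] (B : {B : Finset α // IsB B}) :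
    phi K IsB (X B) = monomial (Multiset.toFinsupp B.1.val) 1 := by
  unfold phi
  rw [aeval_X, prod_X]

lemma phi_mon (K : Type u) [Field K] (m : {B : Finset α // IsB B} →₀ ℕ) :
    phi K IsB (monomial m 1) = monomial (Multiset.toFinsupp (con IsB m)) 1 := by
  induction m using Finsupp.induction_linear with
  | zero =>
    rw [map_zero, map_zero]
    exact map_one (phi K IsB)
  | add f g hf hg =>
    have e1 : (monomial (f + g) (1 : K) : MvPolynomial {B : Finset α // IsB B} K) =
        monomial f 1 * monomial g 1 := by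
      rw [monomial_mul, one_mul]
    rw [e1, map_mul, hf, hg, monomial_mul, one_mul, map_add, map_add]
  | single B k =>
    rw [← X_pow_eq_monomial, map_pow, phi_X, monomial_pow, one_pow, con_single, map_nsmul]

lemma phi_mon' (K : Type u) [Field K] (m : {B : Finset α // IsB B} →₀ ℕ) (c : K) :
    phi K IsB (monomial m c) = monomial (Multiset.toFinsupp (con IsB m)) c := by
  have e1 : (monomial m c : MvPolynomial {B : Finset α // IsB B} K) = c • monomial m 1 := by
    rw [smul_monomial, smul_eq_mul, mul_one]
  rw [e1, map_smul, phi_mon, smul_monomial, smul_eq_mul, mul_one]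

omit [DecidableEq α] in
/-- monomials are products of variables -/
lemma tuple (m : {B : Finset α // IsB B} →₀ ℕ) :
    ∃ (n : ℕ) (B : Fin n → {B : Finset α // IsB B}), m = ∑ i, Finsupp.single (B i) 1 := by
  induction m using Finsupp.induction_linear with
  | zero => exact ⟨0, fun i => i.elim0, by simp⟩
  | add f g hf hg =>
    obtain ⟨n, B, hB⟩ := hf
    obtain ⟨n', B', hB'⟩ := hg
    refine ⟨n + n', Fin.append B B', ?_⟩
    rw [Fin.sum_univ_add, hB, hB']
    congr 1
    · exact Finset.sum_congr rfl fun i _ => by rw [Fin.append_left]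
    · exact Finset.sum_congr rfl fun i _ => by rw [Fin.append_right]
  | single B k =>
    refine ⟨k, fun _ => B, ?_⟩
    rw [Finset.sum_const, Finset.card_univ, Fintype.card_fin, Finsupp.smul_single, smul_eq_mul,
      mul_one]

omit [DecidableEq α] in
open Classical in
/-- the variable of a base -/
noncomputable def x (K : Type u) [Field K] (S : Finset α) :
    MvPolynomial {B : Finset α // IsB B} K :=
  if h : IsB S then X ⟨S, h⟩ else 0

omit [DecidableEq α] in
lemma x_eq (K : Type u) [Field K] (B : {B : Finset α // IsB B}) : x IsB K B.1 = X B := by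
  unfold x
  rw [dif_pos B.2]

/-- the generators of degree at most `D` -/
noncomputable def I (K : Type u) [Field K] (D : ℕ) :
    Ideal (MvPolynomial {B : Finset α // IsB B} K) :=
  Ideal.span {f | f ∈ RingHom.ker (phi K IsB) ∧ ∃ d ≤ D, f.IsHomogeneous d}

lemma phi_prod (K : Type u) [Field K] {n : ℕ} (Z : Finset (Fin n)) (T : Fin n → Finset α)
    (hT : ∀ i, IsB (T i)) :
    phi K IsB (∏ i ∈ Z, x IsB K (T i)) =
      monomial (Multiset.toFinsupp (∑ i ∈ Z, (T i).val)) 1 := by
  rw [map_prod, map_sum, monomial_sum_one]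
  refine Finset.prod_congr rfl fun i _ => ?_
  have h := x_eq IsB K ⟨T i, hT i⟩
  change x IsB K (T i) = _ at h
  rw [h, phi_X]

omit [DecidableEq α] in
lemma hom_prod (K : Type u) [Field K] {n : ℕ} (Z : Finset (Fin n)) (T : Fin n → Finset α)
    (hT : ∀ i, IsB (T i)) : (∏ i ∈ Z, x IsB K (T i)).IsHomogeneous Z.card := by
  have h := IsHomogeneous.prod Z (fun i => x IsB K (T i)) (fun _ => 1) (fun i _ => by
    have h := x_eq IsB K ⟨T i, hT i⟩
    change x IsB K (T i) = _ at h
    change (x IsB K (T i)).IsHomogeneous 1
    rw [h]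
    exact isHomogeneous_X _ _)
  rwa [Finset.sum_const, smul_eq_mul, mul_one] at h

lemma one_step (K : Type u) [Field K] (D : ℕ) {n : ℕ} (T T' : Fin n → Finset α)
    (hT : ∀ i, IsB (T i)) (hT' : ∀ i, IsB (T' i)) (hs : ∑ i, (T' i).val = ∑ i, (T i).val)
    (hc : (univ.filter (fun i => T i ≠ T' i)).card ≤ D) :
    ∏ i, x IsB K (T i) - ∏ i, x IsB K (T' i) ∈ I IsB K D := by
  have e1 := Finset.prod_filter_mul_prod_filter_not univ (fun i => T i ≠ T' i)
    (fun i => x IsB K (T i))
  have e2 := Finset.prod_filter_mul_prod_filter_not univ (fun i => T i ≠ T' i)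
    (fun i => x IsB K (T' i))
  have e3 : ∏ i ∈ univ.filter (fun i => ¬ T i ≠ T' i), x IsB K (T' i) =
      ∏ i ∈ univ.filter (fun i => ¬ T i ≠ T' i), x IsB K (T i) := by
    refine Finset.prod_congr rfl fun i hi => ?_
    have h1 : T i = T' i := not_not.1 (Finset.mem_filter.1 hi).2
    rw [h1]
  have s1 := Finset.sum_filter_add_sum_filter_not univ (fun i => T i ≠ T' i)
    (fun i => (T i).val)
  have s2 := Finset.sum_filter_add_sum_filter_not univ (fun i => T i ≠ T' i)
    (fun i => (T' i).val)
  have s3 : ∑ i ∈ univ.filter (fun i => ¬ T i ≠ T' i), (T' i).val =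
      ∑ i ∈ univ.filter (fun i => ¬ T i ≠ T' i), (T i).val := by
    refine Finset.sum_congr rfl fun i hi => ?_
    have h1 : T i = T' i := not_not.1 (Finset.mem_filter.1 hi).2
    rw [h1]
  have s4 : ∑ i ∈ univ.filter (fun i => T i ≠ T' i), (T' i).val =
      ∑ i ∈ univ.filter (fun i => T i ≠ T' i), (T i).val := by
    rw [s3] at s2
    exact add_right_cancel (s2.trans (hs.trans s1.symm))
  rw [← e1, ← e2, e3, ← sub_mul]
  refine Ideal.mul_mem_right _ _ (Ideal.subset_span ⟨?_, _, hc, ?_⟩)
  · rw [RingHom.mem_ker]
    rw [map_sub, phi_prod IsB K _ T hT, phi_prod IsB K _ T' hT', s4, sub_self]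
  · exact (hom_prod IsB K _ T hT).sub (hom_prod IsB K _ T' hT')

end

theorem t_TOR : Pool.Agent.N609.WH.S_TOR.{u} := by
  intro α _ IsB R D hR hcard hch K _
  -- monomials with the same content
  have hmon : ∀ m m' : {B : Finset α // IsB B} →₀ ℕ, con IsB m = con IsB m' →
      (monomial m (1 : K) - monomial m' 1) ∈ I IsB K D := by
    intro m m' hmm
    obtain ⟨n, B, hB⟩ := tuple IsB m
    obtain ⟨n', C, hC⟩ := tuple IsB m'
    have h1 : con IsB m = ∑ i, (B i).1.val := by
      rw [hB, map_sum]
      exact Finset.sum_congr rfl fun i _ => by rw [con_single, one_smul]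
    have h2 : con IsB m' = ∑ i, (C i).1.val := by
      rw [hC, map_sum]
      exact Finset.sum_congr rfl fun i _ => by rw [con_single, one_smul]
    have h3 : ∑ i, (B i).1.val = ∑ i, (C i).1.val := by rw [← h1, ← h2, hmm]
    have hn : n = n' := by
      have h4 := congrArg Multiset.card h3
      rw [Multiset.card_sum, Multiset.card_sum] at h4
      have h5 : ∑ i, Multiset.card (B i).1.val = n * R := by
        have h7 : ∀ i, Multiset.card (B i).1.val = R := fun i => hcard (B i).1 (B i).2
        simp_rw [h7]
        rw [Finset.sum_const, Finset.card_univ, Fintype.card_fin, smul_eq_mul]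
      have h6 : ∑ i, Multiset.card (C i).1.val = n' * R := by
        have h7 : ∀ i, Multiset.card (C i).1.val = R := fun i => hcard (C i).1 (C i).2
        simp_rw [h7]
        rw [Finset.sum_const, Finset.card_univ, Fintype.card_fin, smul_eq_mul]
      rw [h5, h6] at h4
      exact Nat.eq_of_mul_eq_mul_right hR h4
    subst hn
    have hrt := hch n (fun i => (B i).1) (fun i => (C i).1) (fun i => (B i).2)
      (fun i => (C i).2) h3
    have key : ∀ T : Fin n → Finset α,
        Relation.ReflTransGen (fun T T' : Fin n → Finset α => (∀ i, IsB (T' i)) ∧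
          ∑ i, (T' i).val = ∑ i, (T i).val ∧ (univ.filter (fun i => T i ≠ T' i)).card ≤ D)
          (fun i => (B i).1) T → (∀ i, IsB (T i)) ∧
          ∏ i, x IsB K (B i).1 - ∏ i, x IsB K (T i) ∈ I IsB K D := by
      intro T hT
      induction hT with
      | refl =>
        refine ⟨fun i => (B i).2, ?_⟩
        rw [sub_self]
        exact Ideal.zero_mem _
      | tail _ hbc ih =>
        refine ⟨hbc.1, ?_⟩
        have h4 := one_step IsB K D _ _ ih.1 hbc.1 hbc.2.1 hbc.2.2
        have h5 := Ideal.add_mem _ ih.2 h4
        rwa [sub_add_sub_cancel] at h5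
    have h4 := (key _ hrt).2
    have h5 : (monomial m (1 : K) : MvPolynomial {B : Finset α // IsB B} K) =
        ∏ i, x IsB K (B i).1 := by
      rw [hB, monomial_sum_one]
      exact Finset.prod_congr rfl fun i _ => (x_eq IsB K (B i)).symm
    have h6 : (monomial m' (1 : K) : MvPolynomial {B : Finset α // IsB B} K) =
        ∏ i, x IsB K (C i).1 := by
      rw [hC, monomial_sum_one]
      exact Finset.prod_congr rfl fun i _ => (x_eq IsB K (C i)).symm
    rw [h5, h6]
    exact h4
  -- the section
  obtain ⟨s, hs⟩ : ∃ s : (α →₀ ℕ) → ({B : Finset α // IsB B} →₀ ℕ),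
      ∀ m, con IsB (s (Multiset.toFinsupp (con IsB m))) = con IsB m := by
    refine ⟨Function.invFun fun m => Multiset.toFinsupp (con IsB m), fun m => ?_⟩
    have h := Function.invFun_eq (f := fun m => Multiset.toFinsupp (con IsB m))
      (b := Multiset.toFinsupp (con IsB m)) ⟨m, rfl⟩
    exact Multiset.toFinsupp.injective h
  let Ψ : MvPolynomial α K →ₗ[K] MvPolynomial {B : Finset α // IsB B} K :=
    (basisMonomials α K).constr K fun v => monomial (s v) (1 : K)
  have hΨ : ∀ v (c : K), Ψ (monomial v c) = monomial (s v) c := by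
    intro v c
    have e1 : (monomial v c : MvPolynomial α K) = c • basisMonomials α K v := by
      rw [coe_basisMonomials, smul_monomial, smul_eq_mul, mul_one]
    rw [e1, map_smul]
    change c • ((basisMonomials α K).constr K fun v => monomial (s v) (1 : K))
      (basisMonomials α K v) = _
    rw [Module.Basis.constr_basis, smul_monomial, smul_eq_mul, mul_one]
  have hall : ∀ f : MvPolynomial {B : Finset α // IsB B} K, f - Ψ (phi K IsB f) ∈ I IsB K D := by
    intro f
    induction f using MvPolynomial.induction_on' with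
    | monomial m c =>
      rw [phi_mon', hΨ]
      have h1 := hmon m (s (Multiset.toFinsupp (con IsB m))) (hs m).symm
      have h2 := Ideal.mul_mem_left _ (C c) h1
      rwa [mul_sub, C_mul_monomial, C_mul_monomial, mul_one] at h2
    | add p q hp hq =>
      have h1 := Ideal.add_mem _ hp hq
      rw [map_add, map_add]
      have e : p + q - (Ψ (phi K IsB p) + Ψ (phi K IsB q)) =
        p - Ψ (phi K IsB p) + (q - Ψ (phi K IsB q)) := by ring
      rw [e]
      exact h1
  apply le_antisymm
  · intro f hf
    have h1 := hall f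
    have h2 : phi K IsB f = 0 := hf
    rw [h2, map_zero, sub_zero] at h1
    exact h1
  · exact Ideal.span_le.2 fun f hf => hf.1

end Pool.Agent.N609.WH.Tor
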